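import Pool.Agent.Helper14.MEI2.Girard

/-!
# The tangent cones of the regular tetrahedron, the sectors of the balls about the vertices
-/

namespace Helper14.MEI2

open Set Metric MeasureTheory Real Helper80.CW Helper82.CW Helper14.CW
open scoped RealInnerProductSpace

variable {a : Fin 4 → E3}

/-- the (open) cone of the tetrahedron at the vertex `a i` -/
def TC (a : Fin 4 → E3) (i : Fin 4) : Set E3 := {x | ∀ k, k ≠ i → 0 < ⟪al a k, x - a i⟫}

theorem TC_meas (a : Fin 4 → E3) (i : Fin 4) : MeasurableSet (TC a i) := by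
  have h : TC a i = ⋂ k : Fin 4, ⋂ _ : k ≠ i, {x | 0 < ⟪al a k, x - a i⟫} := by
    ext x
    simp [TC]
  rw [h]
  refine MeasurableSet.iInter fun k => MeasurableSet.iInter fun _ => ?_
  exact measurableSet_lt measurable_const (by fun_prop)

/-- inner products with the differences of the vertices -/
theorem al_inner (ha : ∀ i j, i ≠ j → dist (a i) (a j) = 1) {k i : Fin 4} (hk : k ≠ i)
    (j : Fin 4) : ⟪al a k, a j - a i⟫ = if j = k then (1 / 2 : ℝ) else 0 := by
  have g := gram_of_dist ha
  have e : a j - a i = al a j - al a i := by unfold al; abel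
  rw [e, inner_sub_right, g.off k i hk]
  by_cases h : j = k
  · subst h
    rw [g.diag, if_pos rfl]; norm_num
  · rw [g.off k j (Ne.symm h), if_neg h]; norm_num

/-- the sector of the ball of radius `r` -/
theorem TC_ball_eq (a : Fin 4 → E3) (i : Fin 4) : TC a i ∩ ball (a i) 1 =
    (fun x => a i - x) ⁻¹' (ball (0 : E3) 1 ∩ TriS (fun k => al a (Equiv.swap 0 i k))) := by
  ext x
  simp only [mem_inter_iff, mem_preimage, TC, TriS, mem_setOf_eq, mem_ball, dist_eq_norm, sub_zero]
  rw [norm_sub_rev x (a i)]
  have hneg : ∀ v : E3, (0 < ⟪v, x - a i⟫) ↔ (⟪v, a i - x⟫ < (0 : ℝ)) := by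
    intro v
    rw [← neg_sub x (a i), inner_neg_right]
    constructor <;> intro h <;> linarith
  have key : (∀ k, k ≠ i → 0 < ⟪al a k, x - a i⟫) ↔
      (⟪al a (Equiv.swap 0 i 1), a i - x⟫ < 0 ∧ ⟪al a (Equiv.swap 0 i 2), a i - x⟫ < 0 ∧
        ⟪al a (Equiv.swap 0 i 3), a i - x⟫ < (0 : ℝ)) := by
    simp only [hneg]
    constructor
    · intro h
      have hne : ∀ m : Fin 4, m ≠ 0 → Equiv.swap 0 i m ≠ i := by
        intro m hm h'
        have : Equiv.swap 0 i m = Equiv.swap 0 i 0 := by rw [h', Equiv.swap_apply_left]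
        exact hm ((Equiv.swap 0 i).injective this)
      exact ⟨h _ (hne 1 (by decide)), h _ (hne 2 (by decide)), h _ (hne 3 (by decide))⟩
    · rintro ⟨h1, h2, h3⟩ k hk
      obtain ⟨m, rfl⟩ := (Equiv.swap (0 : Fin 4) i).surjective k
      fin_cases m
      · exact absurd (Equiv.swap_apply_left _ _) hk
      · exact h1
      · exact h2
      · exact h3
  rw [key]
  tauto

/-- **the sector of the unit ball about a vertex in the cone of the tetrahedron** -/
theorem vol_TC_ball (ha : ∀ i j, i ≠ j → dist (a i) (a j) = 1) (i : Fin 4) :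
    volume.real (TC a i ∩ ball (a i) 1) = Om / 3 := by
  have hg : Gram4 (fun k => al a (Equiv.swap 0 i k)) := (gram_of_dist ha).perm _
  have hm : MeasurableSet (ball (0 : E3) 1 ∩ TriS (fun k => al a (Equiv.swap 0 i k))) :=
    measurableSet_ball.inter (TriS_meas _)
  have hp : MeasurePreserving (fun x : E3 => a i - x) volume volume :=
    Measure.measurePreserving_sub_left volume (a i)
  rw [TC_ball_eq, measureReal_def, hp.measure_preimage hm.nullMeasurableSet, ← measureReal_def,
    vol_TriS hg]

theorem vol_TC (ha : ∀ i j, i ≠ j → dist (a i) (a j) = 1) (i : Fin 4) :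
    volume.real (TC a i ∩ closedBall (a i) 1) = Om / 3 := by
  rw [← vol_TC_ball ha i]
  apply le_antisymm
  · have h1 : TC a i ∩ closedBall (a i) 1 ⊆ (TC a i ∩ ball (a i) 1) ∪ sphere (a i) 1 := by
      rintro x ⟨hx, hb⟩
      rcases lt_or_eq_of_le (mem_closedBall.1 hb) with h | h
      · exact Or.inl ⟨hx, mem_ball.2 h⟩
      · exact Or.inr (mem_sphere.2 h)
    have hfin : volume ((TC a i ∩ ball (a i) 1) ∪ sphere (a i) 1) ≠ ⊤ := by
      refine ne_top_of_le_ne_top (measure_closedBall_lt_top (x := a i) (r := 1)).ne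
        (measure_mono (union_subset (inter_subset_right.trans ball_subset_closedBall)
          sphere_subset_closedBall))
    have h2 : volume (sphere (a i) 1) = 0 := Measure.addHaar_sphere _ _ _
    calc volume.real (TC a i ∩ closedBall (a i) 1)
        ≤ volume.real ((TC a i ∩ ball (a i) 1) ∪ sphere (a i) 1) := measureReal_mono h1 hfin
      _ ≤ volume.real (TC a i ∩ ball (a i) 1) + volume.real (sphere (a i) 1) :=
          measureReal_union_le _ _
      _ = volume.real (TC a i ∩ ball (a i) 1) := by
          rw [measureReal_def (s := sphere (a i) 1), h2]; simp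
  · exact measureReal_mono (inter_subset_inter_right _ ball_subset_closedBall)
      (ne_top_of_le_ne_top (measure_closedBall_lt_top (x := a i) (r := 1)).ne
        (measure_mono inter_subset_right))

theorem vol_TC' (ha : ∀ i j, i ≠ j → dist (a i) (a j) = 1) (i : Fin 4) :
    volume (TC a i ∩ closedBall (a i) 1) = ENNReal.ofReal (Om / 3) := by
  rw [← vol_TC ha i, measureReal_def, ENNReal.ofReal_toReal]
  exact ne_top_of_le_ne_top (measure_closedBall_lt_top (x := a i) (r := 1)).ne
    (measure_mono inter_subset_right)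

end Helper14.MEI2
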