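import Pool.Agent.Helper14.MEI2.TetVol
import Pool.Agent.Helper22.MEI.CoMp

/-!
# The regular tetrahedron in the coordinates of a frame
-/

namespace Helper14.MEI2

open Set Metric MeasureTheory Real Helper80.CW Helper82.CW Helper14.CW Helper22.Wedge
open scoped RealInnerProductSpace ENNReal

variable {a : Fin 4 → E3} {b : OrthonormalBasis (Fin 3) ℝ E3}

theorem Om_eq : Om = π / 2 - 3 * arctan (√2 / 4) := by
  have h := Pool.Agent.Helper55.MEI.arctan_half
  have e : Pool.Agent.Helper55.MEI.s0 / 2 = √2 / 4 := by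
    unfold Pool.Agent.Helper55.MEI.s0; ring
  rw [e] at h
  rw [h, Om]
  ring

/-- the frame of the edge `0 1` -/
def Fr (a : Fin 4 → E3) (b : OrthonormalBasis (Fin 3) ℝ E3) : Prop :=
  b 0 = al a 0 - al a 1 ∧ b 1 = al a 2 - al a 3 ∧ b 2 = √2 • (al a 0 + al a 1)

theorem Fr_exists (ha : ∀ i j, i ≠ j → dist (a i) (a j) = 1) : ∃ b, Fr a b :=
  (gram_of_dist ha).frame

/-- the affine functions of the faces in coordinates -/
theorem al_co (ha : ∀ i j, i ≠ j → dist (a i) (a j) = 1) (hb : Fr a b) (x : E3) :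
    ⟪al a 0, x - cen a⟫ = 1 / 2 * (co b (cen a) x).1 + √2 / 4 * (co b (cen a) x).2.2 ∧
    ⟪al a 1, x - cen a⟫ = -(1 / 2) * (co b (cen a) x).1 + √2 / 4 * (co b (cen a) x).2.2 ∧
    ⟪al a 2, x - cen a⟫ = 1 / 2 * (co b (cen a) x).2.1 - √2 / 4 * (co b (cen a) x).2.2 ∧
    ⟪al a 3, x - cen a⟫ = -(1 / 2) * (co b (cen a) x).2.1 - √2 / 4 * (co b (cen a) x).2.2 :=
  frame_inner (gram_of_dist ha) hb.1 hb.2.1 hb.2.2 (x - cen a)

/-- coordinates of the vertices -/
theorem co_vert (ha : ∀ i j, i ≠ j → dist (a i) (a j) = 1) (hb : Fr a b) :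
    co b (cen a) (a 0) = (1 / 2, 0, √2 / 4) ∧ co b (cen a) (a 1) = (-(1 / 2), 0, √2 / 4) ∧
    co b (cen a) (a 2) = (0, 1 / 2, -(√2 / 4)) ∧ co b (cen a) (a 3) = (0, -(1 / 2), -(√2 / 4)) := by
  have g := gram_of_dist ha
  have d := g.diag
  have o10 := g.off 1 0 (by decide)
  have o01 := g.off 0 1 (by decide)
  have o20 := g.off 2 0 (by decide)
  have o02 := g.off 0 2 (by decide)
  have o30 := g.off 3 0 (by decide)
  have o03 := g.off 0 3 (by decide)
  have o12 := g.off 1 2 (by decide)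
  have o21 := g.off 2 1 (by decide)
  have o13 := g.off 1 3 (by decide)
  have o31 := g.off 3 1 (by decide)
  have o23 := g.off 2 3 (by decide)
  have o32 := g.off 3 2 (by decide)
  have e : ∀ i, a i - cen a = al a i := fun i => rfl
  unfold co
  rw [hb.1, hb.2.1, hb.2.2]
  simp only [e, inner_sub_left, real_inner_smul_left, inner_add_left, d, o10, o01, o20, o02, o30,
    o03, o12, o21, o13, o31, o23, o32]
  refine ⟨?_, ?_, ?_, ?_⟩ <;> ext <;> norm_num <;> ring

/-- the edge cell by the functions of the faces -/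
theorem EC_iff (ha : ∀ i j, i ≠ j → dist (a i) (a j) = 1) (hb : Fr a b) (x : E3) :
    x ∈ EC b (cen a) ↔ ⟪al a 2, x - cen a⟫ < -(1 / 8) ∧ ⟪al a 3, x - cen a⟫ < -(1 / 8) := by
  have s2 : √2 * √2 = 2 := Real.mul_self_sqrt (by norm_num)
  obtain ⟨a0, a1, a2, a3⟩ := al_co ha hb x
  rw [a2, a3]
  show |(co b (cen a) x).2.1| < Helper22.MEI.s * ((co b (cen a) x).2.2 - Helper22.MEI.t) ↔ _
  have e : Helper22.MEI.s * ((co b (cen a) x).2.2 - Helper22.MEI.t) =
      √2 / 2 * (co b (cen a) x).2.2 - 1 / 4 := by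
    unfold Helper22.MEI.s Helper22.MEI.t
    linear_combination (-1 / 8) * s2
  rw [e, abs_lt]
  constructor
  · rintro ⟨h1, h2⟩; constructor <;> linarith
  · rintro ⟨h1, h2⟩; constructor <;> linarith

/-- the cone at a vertex by the functions of the faces -/
theorem TC_iff (ha : ∀ i j, i ≠ j → dist (a i) (a j) = 1) (i : Fin 4) (x : E3) :
    x ∈ TC a i ↔ ∀ k, k ≠ i → -(1 / 8) < ⟪al a k, x - cen a⟫ := by
  have g := gram_of_dist ha
  have e : ∀ k, k ≠ i → ⟪al a k, x - a i⟫ = ⟪al a k, x - cen a⟫ + 1 / 8 := by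
    intro k hk
    have h1 : x - a i = (x - cen a) - al a i := by unfold al; abel
    rw [h1, inner_sub_right, g.off k i hk]
    ring
  constructor
  · intro h k hk
    have := h k hk
    rw [e k hk] at this
    linarith
  · intro h k hk
    rw [e k hk]
    linarith [h k hk]

/-- the tetrahedron in coordinates -/
theorem TT_iff (ha : ∀ i j, i ≠ j → dist (a i) (a j) = 1) (hb : Fr a b) (x : E3) :
    x ∈ TT a ↔ |(co b (cen a) x).1| ≤ √2 / 2 * (co b (cen a) x).2.2 + 1 / 4 ∧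
      |(co b (cen a) x).2.1| ≤ 1 / 4 - √2 / 2 * (co b (cen a) x).2.2 := by
  obtain ⟨a0, a1, a2, a3⟩ := al_co ha hb x
  rw [abs_le, abs_le]
  constructor
  · intro h
    have g0 := h 0
    have g1 := h 1
    have g2 := h 2
    have g3 := h 3
    rw [a0] at g0
    rw [a1] at g1
    rw [a2] at g2
    rw [a3] at g3
    refine ⟨⟨?_, ?_⟩, ?_, ?_⟩ <;> linarith
  · rintro ⟨⟨g0, g1⟩, g2, g3⟩ k
    fin_cases k
    · show -(1 / 8) ≤ ⟪al a 0, x - cen a⟫
      rw [a0]; linarith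
    · show -(1 / 8) ≤ ⟪al a 1, x - cen a⟫
      rw [a1]; linarith
    · show -(1 / 8) ≤ ⟪al a 2, x - cen a⟫
      rw [a2]; linarith
    · show -(1 / 8) ≤ ⟪al a 3, x - cen a⟫
      rw [a3]; linarith

end Helper14.MEI2
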