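import Pool.Agent.Helper14.MEI2.Steiner
import Mathlib.Analysis.Calculus.Rademacher

/-!
# The farthest distance function of a body of constant width
-/

namespace Helper14.MEI2

open Set Metric MeasureTheory Helper80.CW Helper82.CW Filter
open scoped ContDiff Topology RealInnerProductSpace Real

section
variable {K : Set E3}

/-- farthest distance -/
noncomputable def far (K : Set E3) (x : E3) : ℝ := sSup ((fun y => dist x y) '' K)

theorem far_attained (hK : IsCompact K) (hne : K.Nonempty) (x : E3) :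
    ∃ y ∈ K, far K x = dist x y := by
  have hc : ContinuousOn (fun y : E3 => dist x y) K := by fun_prop
  exact hK.exists_sSup_image_eq hne hc

theorem far_ge (hK : IsCompact K) (hne : K.Nonempty) (x : E3) {y : E3} (hy : y ∈ K) :
    dist x y ≤ far K x := by
  have hc : ContinuousOn (fun y : E3 => dist x y) K := by fun_prop
  obtain ⟨z, _, hz1, hz2⟩ := hK.exists_sSup_image_eq_and_ge hne hc
  unfold far
  rw [hz1]
  exact hz2 y hy

theorem far_lip (hK : IsCompact K) (hne : K.Nonempty) : LipschitzWith 1 (far K) := by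
  apply LipschitzWith.of_le_add
  intro x y
  obtain ⟨z, hz, h1⟩ := far_attained hK hne x
  have h2 := far_ge hK hne y hz
  have h3 := dist_triangle x y z
  rw [h1]
  linarith

/-- spherical intersection property -/
theorem far_out (hK : IsCompact K) (hc : Convex ℝ K) (hw : Width1 K) (x : E3) (hx : x ∉ K) :
    1 + infDist x K ≤ far K x := by
  have hne := hw.nonempty
  obtain ⟨p, hpK, hp⟩ := exists_norm_eq_iInf_of_complete_convex hne hK.isComplete hc x
  have hp0 := hp
  rw [norm_eq_iInf_iff_real_inner_le_zero hc hpK] at hp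
  set u := x - p with hu
  have hun : 0 < ‖u‖ := by
    rw [norm_pos_iff]
    intro h0
    exact hx (by rw [sub_eq_zero.1 h0]; exact hpK)
  -- support values
  have h1 : supp K u = ⟪p, u⟫ := by
    obtain ⟨z, hz, hz1⟩ := supp_attained hK hne u
    have h2 := hp z hz
    have h3 := supp_ge hK hne u hpK
    rw [inner_sub_right, real_inner_comm, real_inner_comm p u] at h2
    linarith
  have h2 := supp_width hK hw u
  obtain ⟨y, hy, hy1⟩ := supp_attained hK hne (-u)
  have h3 := far_ge hK hne x hy
  have h4 : ‖u‖ * (1 + ‖u‖) ≤ ⟪x - y, u⟫ := by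
    have e1 : ⟪x - y, u⟫ = ⟪u, u⟫ + ⟪p, u⟫ - ⟪y, u⟫ := by
      rw [inner_sub_left]
      have : x = u + p := by rw [hu]; abel
      conv_lhs => rw [this, inner_add_left]
    rw [inner_neg_right] at hy1
    rw [e1, real_inner_self_eq_norm_mul_norm]
    linarith
  have h5 : ⟪x - y, u⟫ ≤ ‖x - y‖ * ‖u‖ := real_inner_le_norm _ _
  have h6 : 1 + ‖u‖ ≤ ‖x - y‖ := by
    have : ‖u‖ * (1 + ‖u‖) ≤ ‖u‖ * ‖x - y‖ := by linarith
    exact le_of_mul_le_mul_left this hun
  have h7 : infDist x K ≤ ‖u‖ := by
    rw [hu, ← dist_eq_norm]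
    exact infDist_le_dist_of_mem hpK
  rw [dist_eq_norm] at h3
  linarith

theorem far_in (hK : IsCompact K) (hw : Width1 K) {x : E3} (hx : x ∈ K) : far K x ≤ 1 := by
  obtain ⟨y, hy, h1⟩ := far_attained hK hw.nonempty x
  rw [h1]
  exact diam_le hK hw x hx y hy

theorem far_le_infDist (hK : IsCompact K) (hw : Width1 K) (x : E3) : far K x ≤ 1 + infDist x K := by
  obtain ⟨y, hy, h1⟩ := far_attained hK hw.nonempty x
  obtain ⟨p, hp, h2⟩ := hK.exists_infDist_eq_dist hw.nonempty x
  have h3 := diam_le hK hw p hp y hy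
  have h4 := dist_triangle x p y
  rw [h1, h2]
  linarith

theorem mem_iff_far (hK : IsCompact K) (hc : Convex ℝ K) (hw : Width1 K) (x : E3) :
    x ∈ K ↔ far K x ≤ 1 := by
  refine ⟨far_in hK hw, fun h => ?_⟩
  by_contra hx
  have h1 := far_out hK hc hw x hx
  have h2 : 0 < infDist x K := (hK.isClosed.notMem_iff_infDist_pos hw.nonempty).1 hx
  linarith

theorem far_eq (hK : IsCompact K) (hc : Convex ℝ K) (hw : Width1 K) {x : E3} (hx : x ∉ K) :
    far K x = 1 + infDist x K :=
  le_antisymm (far_le_infDist hK hw x) (far_out hK hc hw x hx)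

theorem thick_iff (hK : IsCompact K) (hc : Convex ℝ K) (hw : Width1 K) {δ : ℝ} (hδ : 0 ≤ δ) (x : E3) :
    x ∈ cthickening δ K ↔ far K x ≤ 1 + δ := by
  rw [mem_cthickening_iff, ← ENNReal.ofReal_toReal (infEDist_ne_top hw.nonempty),
    ENNReal.ofReal_le_ofReal_iff hδ]
  show infDist x K ≤ δ ↔ _
  by_cases hx : x ∈ K
  · rw [infDist_zero_of_mem hx]
    have := far_in hK hw hx
    constructor
    · intro _; linarith
    · intro _; exact hδ
  · rw [far_eq hK hc hw hx]
    constructor <;> intro h <;> linarith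

theorem far_pos (hK : IsCompact K) (hc : Convex ℝ K) (hw : Width1 K) (x : E3) : 1 / 2 ≤ far K x := by
  -- two points of `K` at distance 1
  have hne := hw.nonempty
  obtain ⟨p, hp, h1⟩ := supp_attained hK hne (e 0)
  obtain ⟨q, hq, h2⟩ := supp_attained hK hne (-(e 0))
  have h3 := supp_width hK hw (e 0)
  have h4 : ⟪p - q, e 0⟫ = 1 := by
    rw [inner_sub_left]
    rw [inner_neg_right] at h2
    rw [norm_e] at h3
    linarith
  have h5 : 1 ≤ ‖p - q‖ := by
    have := real_inner_le_norm (p - q) (e 0)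
    rw [norm_e, mul_one] at this
    linarith
  have h6 := far_ge hK hne x hp
  have h7 := far_ge hK hne x hq
  have h8 := dist_triangle_left p q x
  rw [dist_eq_norm] at h8
  linarith

/-- (L1): the gradient of the farthest distance -/
theorem far_grad (hK : IsCompact K) (hne : K.Nonempty) {x y : E3} (hy : y ∈ K)
    (hxy : far K x = dist x y) (hne' : x ≠ y) (hd : DifferentiableAt ℝ (far K) x) (v : E3) :
    fderiv ℝ (far K) x v = ⟪x - y, v⟫ / dist x y := by
  have hn : DifferentiableAt ℝ (fun z : E3 => ‖z - y‖) x :=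
    ((contDiffAt_norm ℝ (sub_ne_zero.2 hne')).differentiableAt (by simp : (1 : WithTop ℕ∞) ≠ 0)).comp x
      (differentiableAt_id.sub_const y)
  have hloc : IsLocalMin (fun z : E3 => far K z - ‖z - y‖) x := by
    apply Filter.Eventually.of_forall
    intro z
    have h1 := far_ge hK hne z hy
    simp only
    rw [hxy, dist_eq_norm, sub_self]
    rw [dist_eq_norm] at h1
    linarith
  have h0 := hloc.fderiv_eq_zero
  have h1 : fderiv ℝ (fun z : E3 => far K z - ‖z - y‖) x =
      fderiv ℝ (far K) x - fderiv ℝ (fun z : E3 => ‖z - y‖) x := fderiv_sub hd hn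
  rw [h1, sub_eq_zero] at h0
  rw [h0]
  -- derivative of the norm through its square
  have hnn : 0 < ‖x - y‖ := norm_pos_iff.2 (sub_ne_zero.2 hne')
  have h2 : HasFDerivAt (fun z : E3 => ‖z - y‖ ^ 2) (2 • (innerSL ℝ (x - y))) x := by
    have := (HasFDerivAt.norm_sq ((hasFDerivAt_id x).sub_const y))
    simpa using this
  have h3 : HasFDerivAt (fun z : E3 => ‖z - y‖ ^ 2)
      ((2 * ‖x - y‖) • fderiv ℝ (fun z : E3 => ‖z - y‖) x) x := by
    have := hn.hasFDerivAt.pow 2
    simpa using this
  have h4 := congrArg (fun L : E3 →L[ℝ] ℝ => L v) (h2.unique h3)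
  simp only [ContinuousLinearMap.smul_apply, innerSL_apply_apply, smul_eq_mul,
    nsmul_eq_mul, Nat.cast_ofNat] at h4
  rw [dist_eq_norm, eq_div_iff hnn.ne']
  linarith

end

end Helper14.MEI2
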