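import Pool.Agent.Helper55.MEI.L3f
import Pool.Agent.Helper14.CW.Vol2

/-!
# The cone of the regular tetrahedron at a vertex: solid angle
-/

namespace Helper14.MEI2

open Set Metric MeasureTheory Real Helper80.CW Helper82.CW Helper14.CW Pool.Agent.Helper55.MEI
open scoped RealInnerProductSpace

/-- the integral over the line in the triangle -/
noncomputable def JO (X : ℝ) : ℝ := 2 * (s0 * X / nr 1 (k0 * X) * (1 / nr 1 X) ^ 2)

/-- antiderivative -/
noncomputable def FO (X : ℝ) : ℝ := 2 * arctan (2 * s0 * nr 1 (k0 * X))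

theorem FO_deriv (X : ℝ) : HasDerivAt FO (JO X) X := by
  have hp := nr_pos one_pos X
  have hm := nr_pos one_pos (k0 * X)
  have h := (((m_deriv X).const_mul (2 * s0)).arctan).const_mul 2
  refine h.congr_deriv ?_
  have p2 : nr 1 X ^ 2 = 1 + X ^ 2 := by rw [nr_sq]; ring
  have m2 : nr 1 (k0 * X) ^ 2 = 1 + 3 / 2 * X ^ 2 := by rw [nr_sq, mul_pow, k0_sq]; ring
  have b2 := s0_sq
  have e : 1 + (2 * s0 * nr 1 (k0 * X)) ^ 2 = 3 * nr 1 X ^ 2 := by
    rw [mul_pow, mul_pow, b2, m2, p2]; ring
  unfold JO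
  rw [e]
  field_simp

theorem JO_cont : Continuous JO := by
  have h : JO = fun X : ℝ => 2 * (s0 * X * (1 / nr 1 (k0 * X)) * (1 / nr 1 X) ^ 2) := by
    funext X
    unfold JO
    ring
  rw [h]
  have h1 : Continuous fun X => 1 / nr 1 X :=
    continuous_const.div rho_cont fun X => (nr_pos one_pos X).ne'
  have h2 : Continuous fun X => 1 / nr 1 (k0 * X) :=
    continuous_const.div (rho_cont.comp (continuous_const.mul continuous_id))
      fun X => (nr_pos one_pos _).ne'
  fun_prop

/-- the density -/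
noncomputable def g3 (p : ℝ × ℝ) : ℝ := 1 / nr (nr 1 p.1) p.2 ^ 3

theorem g3_eq (p : ℝ × ℝ) : (Nn p ^ 3)⁻¹ = g3 p := by
  unfold g3
  rw [Nn_eq, one_div]

theorem g3_int {r : ℝ} (hr : 0 < r) (a b : ℝ) :
    ∫ Y in a..b, 1 / nr r Y ^ 3 = b / nr r b / r ^ 2 - a / nr r a / r ^ 2 := by
  refine intervalIntegral.integral_eq_sub_of_hasDerivAt (fun Y _ => a3_deriv hr Y) ?_
  exact (continuous_const.div ((nr_cont r).pow 3)
    fun Y => (pow_pos (nr_pos hr Y) 3).ne').intervalIntegrable _ _

/-- the triangle part -/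
theorem tri3_val : ∫ p in TR, g3 p = FO (2 * s0) - FO 0 := by
  have hs := s0_pos
  have hK : IsCompact (Icc (0 : ℝ) √2 ×ˢ Icc (-1 : ℝ) 1) := isCompact_Icc.prod isCompact_Icc
  have s2 : √2 * √2 = 2 := Real.mul_self_sqrt (by norm_num)
  have hsub : TR ⊆ Icc (0 : ℝ) √2 ×ˢ Icc (-1 : ℝ) 1 := by
    rintro p ⟨h1, h2, h3⟩
    have h0 : 0 < √2 := by positivity
    have h4 : |p.2| < 1 := by
      have : √2 / 2 * p.1 < 1 := by nlinarith
      linarith
    rw [abs_lt] at h4
    exact ⟨⟨h1.le, h2.le⟩, h4.1.le, h4.2.le⟩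
  have hi : IntegrableOn g3 TR :=
    ((NNi_cont 3).continuousOn.integrableOn_compact hK).mono_set hsub
  have hi2 : Integrable (TR.indicator g3) :=
    (integrable_indicator_iff TR_meas).2 hi
  rw [← integral_indicator TR_meas, Measure.volume_eq_prod]
  rw [Measure.volume_eq_prod] at hi2
  rw [integral_prod _ hi2]
  have key : ∀ x : ℝ, ∫ y, TR.indicator g3 (x, y) = (Ioo 0 (2 * s0)).indicator JO x := by
    intro x
    by_cases hx : x ∈ Ioo 0 (2 * s0)
    · rw [indicator_of_mem hx]
      have e : (fun y => TR.indicator g3 (x, y)) =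
          (Ioo (-(s0 * x)) (s0 * x)).indicator (fun Y => 1 / nr (nr 1 x) Y ^ 3) := by
        funext y
        by_cases hy : y ∈ Ioo (-(s0 * x)) (s0 * x)
        · rw [indicator_of_mem hy, indicator_of_mem, g3]
          refine ⟨hx.1, ?_, ?_⟩
          · rw [root_two]
            exact hx.2
          · have : √2 / 2 * x = s0 * x := rfl
            show |y| < √2 / 2 * x
            rw [this, abs_lt]
            exact hy
        · rw [indicator_of_notMem hy, indicator_of_notMem]
          rintro ⟨h1, h2, h3⟩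
          have : √2 / 2 * x = s0 * x := rfl
          have h3' : |y| < √2 / 2 * x := h3
          rw [this, abs_lt] at h3'
          exact hy h3'
      have hx0 : 0 < s0 * x := mul_pos hs hx.1
      have hn0 : ∀ r Y : ℝ, nr r (-Y) = nr r Y := fun r Y => by rw [nr, nr, neg_sq]
      have hn := hn0 (nr 1 x) (s0 * x)
      rw [e, integral_indicator measurableSet_Ioo, ← integral_Ioc_eq_integral_Ioo,
        ← intervalIntegral.integral_of_le (by linarith), g3_int (nr_pos one_pos x), hn, nr_tri]
      unfold JO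
      ring
    · rw [indicator_of_notMem hx]
      have e : (fun y => TR.indicator g3 (x, y)) = fun _ => 0 := by
        funext y
        rw [indicator_of_notMem]
        rintro ⟨h1, h2, h3⟩
        rw [root_two] at h2
        exact hx ⟨h1, h2⟩
      rw [e, integral_zero]
  rw [integral_congr_ae (Filter.Eventually.of_forall key), integral_indicator measurableSet_Ioo,
    ← integral_Ioc_eq_integral_Ioo, ← intervalIntegral.integral_of_le (by linarith),
    intervalIntegral.integral_eq_sub_of_hasDerivAt (fun X _ => FO_deriv X)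
      (JO_cont.intervalIntegrable _ _)]

theorem FO_val : FO (2 * s0) - FO 0 = 3 * arccos (1 / 3) - π := by
  have h1 : nr 1 (k0 * (2 * s0)) = 2 := by
    have h := nr_sq 1 (k0 * (2 * s0))
    have h2 : nr 1 (k0 * (2 * s0)) ^ 2 = 2 ^ 2 := by
      rw [h, mul_pow, mul_pow, k0_sq, s0_sq]; norm_num
    have hp := nr_pos one_pos (k0 * (2 * s0))
    nlinarith
  have h0 : nr 1 (k0 * 0) = 1 := by
    rw [mul_zero, nr]; norm_num
  unfold FO
  rw [h1, h0, mul_one, show 2 * s0 * 2 = 4 * s0 by ring, arctan_four, arctan_two]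
  ring

/-- the solid angle of the cone of the regular tetrahedron at a vertex -/
noncomputable def Om : ℝ := 3 * arccos (1 / 3) - π

/-- volume of the sector of the unit ball -/
theorem vol_TriS {v : Fin 4 → E3} (h : Gram4 v) :
    volume.real (ball (0 : E3) 1 ∩ TriS v) = Om / 3 := by
  obtain ⟨b, h0, h1, h2⟩ := h.frame
  set c := b.reindex (Equiv.swap 0 2) with hc
  have c0 : c 0 = Real.sqrt 2 • (v 0 + v 1) := by
    rw [hc, OrthonormalBasis.reindex_apply]; exact h2
  have c1 : c 1 = v 2 - v 3 := by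
    rw [hc, OrthonormalBasis.reindex_apply]; exact h1
  have c2 : c 2 = v 0 - v 1 := by
    rw [hc, OrthonormalBasis.reindex_apply]; exact h0
  have hm : MeasurableSet (ball (0 : E3) 1 ∩ TriS v) := measurableSet_ball.inter (TriS_meas v)
  have e1 : volume.real (ball (0 : E3) 1 ∩ TriS v) = ∫ _ in ball (0 : E3) 1 ∩ TriS v, (1 : ℝ) := by
    simp [setIntegral_const]
  rw [e1, TriS_cone h c2 c1 c0, chart c TR_meas TR_fin (F := fun _ => 1) (C := 1)]
  · simp only [one_mul, g3_eq]
    rw [tri3_val, FO_val, Om]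
    ring
  · intro r hr x hx
    simp
  · exact measurable_const
  · intro x hx
    simp

end Helper14.MEI2
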