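import Pool.Agent.Helper14.MEI2.Far

/-!
# Integration by parts for Lipschitz fields, polyhedral cells with tangential faces
-/

namespace Helper14.MEI2

open Set Metric MeasureTheory Helper80.CW Filter
open scoped ContDiff Topology RealInnerProductSpace Real

/-- divergence -/
noncomputable def dvg (J : E3 → E3) (x : E3) : ℝ := ∑ i, (fderiv ℝ J x (e i)) i

theorem int_bdd {f : E3 → ℝ} {R B : ℝ} (hm : AEStronglyMeasurable f volume)
    (hs : ∀ x, x ∉ closedBall (0 : E3) R → f x = 0) (hb : ∀ᵐ x, |f x| ≤ B) : Integrable f := by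
  have h1 : IntegrableOn f (closedBall (0 : E3) R) := by
    have hc : IntegrableOn (fun _ : E3 => B) (closedBall (0 : E3) R) :=
      integrableOn_const measure_closedBall_lt_top.ne
    refine Integrable.mono' hc hm.restrict ?_
    exact ae_restrict_of_ae hb
  exact (integrableOn_iff_integrable_of_support_subset
    (fun x hx => by by_contra h; exact hx (hs x h))).1 h1

theorem coord_lip {J : E3 → E3} {C : NNReal} (hJ : LipschitzWith C J) (i : Fin 3) :
    LipschitzWith C (fun x => J x i) := by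
  apply LipschitzWith.of_dist_le_mul
  intro x y
  refine le_trans ?_ (hJ.dist_le_mul x y)
  rw [dist_eq_norm, dist_eq_norm]
  exact PiLp.norm_apply_le (J x - J y) i

theorem fderiv_coord {J : E3 → E3} {x : E3} (h : DifferentiableAt ℝ J x) (i : Fin 3) (v : E3) :
    fderiv ℝ (fun x => J x i) x v = (fderiv ℝ J x v) i := by
  have h2 : HasFDerivAt (fun y => J y i)
      ((EuclideanSpace.proj i : E3 →L[ℝ] ℝ) ∘L fderiv ℝ J x) x :=
    (EuclideanSpace.proj i : E3 →L[ℝ] ℝ).hasFDerivAt.comp x h.hasFDerivAt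
  rw [h2.fderiv]
  rfl

theorem fderiv_expand (g : E3 → ℝ) (x v : E3) : fderiv ℝ g x v = ∑ i, v i * fderiv ℝ g x (e i) := by
  conv_lhs => rw [← sum_smul_e v]
  rw [map_sum]
  simp

theorem meas_apply {g : E3 → ℝ} {J : E3 → E3} (hJ : Measurable J) :
    Measurable (fun x => fderiv ℝ g x (J x)) := by
  have e1 : (fun x => fderiv ℝ g x (J x)) = fun x => ∑ i, J x i * fderiv ℝ g x (e i) :=
    funext fun x => fderiv_expand g x (J x)
  rw [e1]
  apply Finset.measurable_sum
  intro i _
  have h1 : Measurable (fun x => J x i) :=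
    (EuclideanSpace.proj i : E3 →L[ℝ] ℝ).continuous.measurable.comp hJ
  exact h1.mul (measurable_fderiv_apply_const ℝ g (e i))

theorem meas_dvg (J : E3 → E3) : Measurable (dvg J) := by
  unfold dvg
  apply Finset.measurable_sum
  intro i _
  exact (EuclideanSpace.proj i : E3 →L[ℝ] ℝ).continuous.measurable.comp
    (measurable_fderiv_apply_const ℝ J (e i))

theorem fderiv_bd {g : E3 → ℝ} {D : NNReal} (hg : LipschitzWith D g) (x v : E3) :
    |fderiv ℝ g x v| ≤ D * ‖v‖ := by
  have h1 := norm_fderiv_le_of_lipschitz ℝ hg (x₀ := x)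
  have h2 := (fderiv ℝ g x).le_opNorm v
  rw [Real.norm_eq_abs] at h2
  exact h2.trans (mul_le_mul_of_nonneg_right h1 (norm_nonneg v))

theorem dvg_bd {J : E3 → E3} {C : NNReal} (hJ : LipschitzWith C J) (x : E3) :
    |dvg J x| ≤ 3 * C := by
  unfold dvg
  refine (Finset.abs_sum_le_sum_abs _ _).trans ?_
  have h : ∀ i ∈ (Finset.univ : Finset (Fin 3)), |(fderiv ℝ J x (e i)) i| ≤ C := by
    intro i _
    have h1 := norm_fderiv_le_of_lipschitz ℝ hJ (x₀ := x)
    have h2 := (fderiv ℝ J x).le_opNorm (e i)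
    rw [norm_e, mul_one] at h2
    have h3 := PiLp.norm_apply_le (fderiv ℝ J x (e i)) i
    rw [Real.norm_eq_abs] at h3
    exact h3.trans (h2.trans h1)
  refine (Finset.sum_le_sum h).trans ?_
  simp

/-- a compactly supported function vanishes outside a ball, with its derivative -/
theorem supp_ball {g : E3 → ℝ} (hgs : HasCompactSupport g) :
    ∃ R, ∀ x, x ∉ closedBall (0 : E3) R → g x = 0 ∧ fderiv ℝ g x = 0 := by
  obtain ⟨R, hR⟩ := hgs.isBounded.subset_closedBall (0 : E3)
  refine ⟨R, fun x hx => ?_⟩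
  have h1 : x ∉ tsupport g := fun h => hx (hR h)
  have h2 : g =ᶠ[𝓝 x] 0 := notMem_tsupport_iff_eventuallyEq.1 h1
  refine ⟨h2.self_of_nhds, ?_⟩
  rw [h2.fderiv_eq]
  simp

theorem lip_bdd_ball {J : E3 → E3} {C : NNReal} (hJ : LipschitzWith C J) (R : ℝ) :
    ∃ B, 0 ≤ B ∧ ∀ x ∈ closedBall (0 : E3) R, ‖J x‖ ≤ B := by
  obtain ⟨B, hB⟩ := (isCompact_closedBall (0 : E3) R).exists_bound_of_continuousOn
    hJ.continuous.continuousOn
  exact ⟨max B 0, le_max_right _ _, fun x hx => (hB x hx).trans (le_max_left _ _)⟩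

theorem int_fderiv {J : E3 → E3} {C : NNReal} (hJ : LipschitzWith C J) {g : E3 → ℝ} {D : NNReal}
    (hg : LipschitzWith D g) (hgs : HasCompactSupport g) :
    Integrable (fun x => fderiv ℝ g x (J x)) := by
  obtain ⟨R, hR⟩ := supp_ball hgs
  obtain ⟨B, hB0, hB⟩ := lip_bdd_ball hJ R
  refine int_bdd (R := R) (B := D * B) (meas_apply hJ.continuous.measurable).aestronglyMeasurable ?_ ?_
  · intro x hx
    rw [(hR x hx).2]
    rfl
  · apply Eventually.of_forall
    intro x
    by_cases hx : x ∈ closedBall (0 : E3) R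
    · exact (fderiv_bd hg x (J x)).trans (mul_le_mul_of_nonneg_left (hB x hx) D.2)
    · rw [(hR x hx).2]
      simpa using mul_nonneg D.2 hB0

theorem int_dvg {J : E3 → E3} {C : NNReal} (hJ : LipschitzWith C J) {g : E3 → ℝ}
    (hg : Continuous g) (hgs : HasCompactSupport g) : Integrable (fun x => dvg J x * g x) := by
  obtain ⟨R, hR⟩ := supp_ball hgs
  obtain ⟨B, hB⟩ := hgs.exists_bound_of_continuous hg
  refine int_bdd (R := R) (B := 3 * C * B)
    ((meas_dvg J).mul hg.measurable).aestronglyMeasurable ?_ ?_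
  · intro x hx
    rw [(hR x hx).1, mul_zero]
  · apply Eventually.of_forall
    intro x
    rw [abs_mul]
    exact mul_le_mul (dvg_bd hJ x) (hB x) (abs_nonneg _) (by positivity)

/-- integration by parts -/
theorem ibp {J : E3 → E3} {C : NNReal} (hJ : LipschitzWith C J) {g : E3 → ℝ} {D : NNReal}
    (hg : LipschitzWith D g) (hgs : HasCompactSupport g) :
    ∫ x, dvg J x * g x = - ∫ x, fderiv ℝ g x (J x) := by
  obtain ⟨R, hR⟩ := supp_ball hgs
  obtain ⟨B, hB0, hB⟩ := lip_bdd_ball hJ R
  obtain ⟨G, hG⟩ := hgs.exists_bound_of_continuous hg.continuous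
  have hJd := hJ.ae_differentiableAt (μ := (volume : Measure E3))
  have hgd := hg.ae_differentiableAt (μ := (volume : Measure E3))
  -- one coordinate
  have key : ∀ i : Fin 3, ∫ x, (fderiv ℝ J x (e i)) i * g x = - ∫ x, J x i * fderiv ℝ g x (e i) := by
    intro i
    have h1 := (coord_lip hJ i).integral_lineDeriv_mul_eq (μ := (volume : Measure E3)) hg hgs (e i)
    have e1 : ∫ x, lineDeriv ℝ (fun x => J x i) x (e i) * g x = ∫ x, (fderiv ℝ J x (e i)) i * g x := by
      apply integral_congr_ae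
      filter_upwards [hJd] with x hx
      have h2 : DifferentiableAt ℝ (fun x => J x i) x :=
        (EuclideanSpace.proj i : E3 →L[ℝ] ℝ).differentiableAt.comp x hx
      rw [h2.lineDeriv_eq_fderiv, fderiv_coord hx]
    have e2 : ∫ x, lineDeriv ℝ g x (-e i) * J x i = - ∫ x, J x i * fderiv ℝ g x (e i) := by
      rw [← integral_neg]
      apply integral_congr_ae
      filter_upwards [hgd] with x hx
      rw [hx.lineDeriv_eq_fderiv, map_neg]
      ring
    rw [e1, e2] at h1
    exact h1
  have i1 : ∀ i : Fin 3, Integrable (fun x => (fderiv ℝ J x (e i)) i * g x) := by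
    intro i
    refine int_bdd (R := R) (B := C * G) ?_ ?_ ?_
    · exact (((EuclideanSpace.proj i : E3 →L[ℝ] ℝ).continuous.measurable.comp
        (measurable_fderiv_apply_const ℝ J (e i))).mul hg.continuous.measurable).aestronglyMeasurable
    · intro x hx
      rw [(hR x hx).1, mul_zero]
    · apply Eventually.of_forall
      intro x
      rw [abs_mul]
      have h1 := norm_fderiv_le_of_lipschitz ℝ hJ (x₀ := x)
      have h2 := (fderiv ℝ J x).le_opNorm (e i)
      rw [norm_e, mul_one] at h2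
      have h3 := PiLp.norm_apply_le (fderiv ℝ J x (e i)) i
      rw [Real.norm_eq_abs] at h3
      exact mul_le_mul (h3.trans (h2.trans h1)) (hG x) (abs_nonneg _) (by positivity)
  have i2 : ∀ i : Fin 3, Integrable (fun x => J x i * fderiv ℝ g x (e i)) := by
    intro i
    refine int_bdd (R := R) (B := B * D) ?_ ?_ ?_
    · exact (((EuclideanSpace.proj i : E3 →L[ℝ] ℝ).continuous.measurable.comp
        hJ.continuous.measurable).mul (measurable_fderiv_apply_const ℝ g (e i))).aestronglyMeasurable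
    · intro x hx
      rw [(hR x hx).2]
      simp
    · apply Eventually.of_forall
      intro x
      by_cases hx : x ∈ closedBall (0 : E3) R
      · rw [abs_mul]
        have h1 := fderiv_bd hg x (e i)
        rw [norm_e, mul_one] at h1
        have h3 := PiLp.norm_apply_le (J x) i
        rw [Real.norm_eq_abs] at h3
        exact mul_le_mul (h3.trans (hB x hx)) h1 (abs_nonneg _) hB0
      · rw [(hR x hx).2]
        simpa using mul_nonneg hB0 D.2
  have s1 : ∫ x, dvg J x * g x = ∑ i, ∫ x, (fderiv ℝ J x (e i)) i * g x := by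
    rw [← integral_finset_sum _ (fun i _ => i1 i)]
    congr 1
    ext x
    unfold dvg
    rw [Finset.sum_mul]
  have s2 : ∫ x, fderiv ℝ g x (J x) = ∑ i, ∫ x, J x i * fderiv ℝ g x (e i) := by
    rw [← integral_finset_sum _ (fun i _ => i2 i)]
    congr 1
    ext x
    exact fderiv_expand g x (J x)
  rw [s1, s2, ← Finset.sum_neg_distrib]
  exact Finset.sum_congr rfl (fun i _ => key i)

/-! ### ramps -/

/-- the ramp `0` for `t ≤ 0`, `t / ε` for `0 ≤ t ≤ ε`, `1` for `t ≥ ε` -/
noncomputable def ramp (ε t : ℝ) : ℝ := max 0 (min 1 (t / ε))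

theorem ramp_nonneg (ε t : ℝ) : 0 ≤ ramp ε t := le_max_left _ _

theorem ramp_le_one (ε t : ℝ) : ramp ε t ≤ 1 := max_le zero_le_one (min_le_left _ _)

theorem ramp_abs (ε t : ℝ) : |ramp ε t| ≤ 1 := by
  rw [abs_of_nonneg (ramp_nonneg ε t)]; exact ramp_le_one ε t

theorem ramp_lip {ε : ℝ} (hε : 0 < ε) : LipschitzWith (Real.toNNReal ε⁻¹) (ramp ε) := by
  have h1 : LipschitzWith (Real.toNNReal ε⁻¹) (fun t : ℝ => t / ε) := by
    apply LipschitzWith.of_dist_le_mul
    intro x y
    rw [Real.dist_eq, Real.dist_eq, Real.coe_toNNReal _ (inv_nonneg.2 hε.le), ← sub_div, abs_div,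
      abs_of_pos hε, div_eq_inv_mul]
  unfold ramp
  exact (h1.const_min 1).const_max 0

theorem ramp_zero {ε t : ℝ} (hε : 0 < ε) (ht : t ≤ 0) : ramp ε t = 0 := by
  unfold ramp
  have : t / ε ≤ 0 := div_nonpos_of_nonpos_of_nonneg ht hε.le
  exact max_eq_left ((min_le_right _ _).trans this)

theorem ramp_one {ε t : ℝ} (hε : 0 < ε) (ht : ε ≤ t) : ramp ε t = 1 := by
  unfold ramp
  have : 1 ≤ t / ε := (one_le_div hε).2 ht
  rw [min_eq_left this]
  exact max_eq_right zero_le_one

theorem ramp_mid {ε t : ℝ} (hε : 0 < ε) (h0 : 0 ≤ t) (h1 : t ≤ ε) : ramp ε t = t / ε := by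
  unfold ramp
  have : t / ε ≤ 1 := (div_le_one hε).2 h1
  rw [min_eq_right this]
  exact max_eq_right (div_nonneg h0 hε.le)

/-- derivative of a ramp of a function -/
theorem ramp_fderiv {ε : ℝ} (hε : 0 < ε) {m : E3 → ℝ} {x : E3} (hm : DifferentiableAt ℝ m x)
    (hr : DifferentiableAt ℝ (fun z => ramp ε (m z)) x) :
    fderiv ℝ (fun z => ramp ε (m z)) x =
      if 0 < m x ∧ m x < ε then ε⁻¹ • fderiv ℝ m x else 0 := by
  split_ifs with h
  · have h1 : (fun z => ramp ε (m z)) =ᶠ[𝓝 x] fun z => m z / ε := by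
      have h2 : ∀ᶠ z in 𝓝 x, 0 < m z ∧ m z < ε :=
        (hm.continuousAt.eventually (lt_mem_nhds h.1)).and
          (hm.continuousAt.eventually (gt_mem_nhds h.2))
      filter_upwards [h2] with z hz
      exact ramp_mid hε hz.1.le hz.2.le
    rw [h1.fderiv_eq]
    have h3 : (fun z => m z / ε) = fun z => ε⁻¹ • m z := by
      ext z; rw [smul_eq_mul]; ring
    rw [h3]
    exact fderiv_const_smul hm ε⁻¹
  · by_cases h0 : m x ≤ 0
    · have hloc : IsLocalMin (fun z => ramp ε (m z)) x := by
        apply Eventually.of_forall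
        intro z
        simp only
        rw [ramp_zero hε h0]
        exact ramp_nonneg _ _
      exact hloc.fderiv_eq_zero
    · push Not at h0
      have h1 : ε ≤ m x := by
        by_contra hc
        exact h ⟨h0, not_le.1 hc⟩
      have hloc : IsLocalMax (fun z => ramp ε (m z)) x := by
        apply Eventually.of_forall
        intro z
        simp only
        rw [ramp_one hε h1]
        exact ramp_le_one _ _
      exact hloc.fderiv_eq_zero

end Helper14.MEI2
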