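import Pool.Agent.Helper14.MEI2.Coord
import Pool.Agent.Helper22.MEI.Sig
import Pool.Agent.Helper93.MEI.Bar

/-!
# Partition of a placed body by the planes of the faces of the tetrahedron
-/

namespace Helper14.MEI2

open Set Metric MeasureTheory Real Helper80.CW Helper82.CW Helper14.CW Helper93.MEI Helper22.Sig
open scoped RealInnerProductSpace ENNReal

variable {a : Fin 4 → E3}

/-- the open tetrahedron -/
def T0 (a : Fin 4 → E3) : Set E3 := {x | ∀ k, 0 < bar a k x}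

/-- the cell beyond the face opposite to the vertex `i` -/
def Wc (a : Fin 4 → E3) (i : Fin 4) : Set E3 := {x | bar a i x < 0 ∧ ∀ k, k ≠ i → 0 < bar a k x}

/-- the wedge beyond the edge whose complement is `{k, l}` -/
def Ze (a : Fin 4 → E3) (k l : Fin 4) : Set E3 := {x | bar a k x < 0 ∧ bar a l x < 0}

/-- the eleven cells -/
def cl (a : Fin 4 → E3) : Fin 11 → Set E3 :=
  ![T0 a, Wc a 0, Wc a 1, Wc a 2, Wc a 3, Ze a 2 3, Ze a 1 3, Ze a 1 2, Ze a 0 3, Ze a 0 2, Ze a 0 1]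

theorem bar_cont (a : Fin 4 → E3) (k : Fin 4) : Continuous (bar a k) := by
  unfold bar
  fun_prop

theorem T0_open (a : Fin 4 → E3) : IsOpen (T0 a) := by
  have h : T0 a = ⋂ k : Fin 4, {x | 0 < bar a k x} := by
    ext x
    simp [T0]
  rw [h]
  exact isOpen_iInter_of_finite fun k => isOpen_lt continuous_const (bar_cont a k)

theorem TC_bar (ha : ∀ i j, i ≠ j → dist (a i) (a j) = 1) (i : Fin 4) :
    TC a i = {x | ∀ k, k ≠ i → 0 < bar a k x} := by
  ext x
  rw [TC_iff ha]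
  constructor
  · intro h k hk
    have := h k hk
    show 0 < bar a k x
    unfold bar
    linarith
  · intro h k hk
    have h1 : 0 < bar a k x := h k hk
    unfold bar at h1
    linarith

theorem TC_open (ha : ∀ i j, i ≠ j → dist (a i) (a j) = 1) (i : Fin 4) : IsOpen (TC a i) := by
  have h : TC a i = ⋂ k : Fin 4, ⋂ _ : k ≠ i, {x | 0 < bar a k x} := by
    rw [TC_bar ha]
    ext x
    simp
  rw [h]
  refine isOpen_iInter_of_finite fun k => isOpen_iInter_of_finite fun _ => ?_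
  exact isOpen_lt continuous_const (bar_cont a k)

theorem Wc_open (ha : ∀ i j, i ≠ j → dist (a i) (a j) = 1) (i : Fin 4) : IsOpen (Wc a i) := by
  have h : Wc a i = {x | bar a i x < 0} ∩ TC a i := by
    rw [TC_bar ha]
    rfl
  rw [h]
  exact (isOpen_lt (bar_cont a i) continuous_const).inter (TC_open ha i)

theorem Ze_open (a : Fin 4 → E3) (k l : Fin 4) : IsOpen (Ze a k l) :=
  (isOpen_lt (bar_cont a k) continuous_const).inter (isOpen_lt (bar_cont a l) continuous_const)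

theorem cl_open (ha : ∀ i j, i ≠ j → dist (a i) (a j) = 1) (m : Fin 11) : IsOpen (cl a m) := by
  fin_cases m
  · exact T0_open a
  · exact Wc_open ha 0
  · exact Wc_open ha 1
  · exact Wc_open ha 2
  · exact Wc_open ha 3
  · exact Ze_open a 2 3
  · exact Ze_open a 1 3
  · exact Ze_open a 1 2
  · exact Ze_open a 0 3
  · exact Ze_open a 0 2
  · exact Ze_open a 0 1

/-- the cells are an exact partition -/
theorem cl_sum (ha : ∀ i j, i ≠ j → dist (a i) (a j) = 1) {x : E3} (hp : Pl a x)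
    (hz : ∀ k, bar a k x ≠ 0) : ∑ m, (cl a m).indicator (fun _ => (1 : ℝ)) x = 1 := by
  classical
  have g := gram_of_dist ha
  have hs := bar_sum g x
  have hq := (pl_iff g).1 hp
  have q01 := hq 0 1 (by decide)
  have q10 := hq 1 0 (by decide)
  have q20 := hq 2 0 (by decide)
  have q30 := hq 3 0 (by decide)
  have eT : ∀ S : Set E3, S.indicator (fun _ => (1 : ℝ)) x = if x ∈ S then 1 else 0 := fun S => by
    rw [indicator_apply]
  have mT : x ∈ T0 a ↔ (0 < bar a 0 x ∧ 0 < bar a 1 x ∧ 0 < bar a 2 x ∧ 0 < bar a 3 x) := by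
    constructor
    · intro h; exact ⟨h 0, h 1, h 2, h 3⟩
    · rintro ⟨h0, h1, h2, h3⟩ k
      fin_cases k
      · exact h0
      · exact h1
      · exact h2
      · exact h3
  have mW : ∀ i j k l : Fin 4, (∀ m : Fin 4, m = i ∨ m = j ∨ m = k ∨ m = l) → j ≠ i → k ≠ i →
      l ≠ i → (x ∈ Wc a i ↔ (bar a i x < 0 ∧ 0 < bar a j x ∧ 0 < bar a k x ∧ 0 < bar a l x)) := by
    intro i j k l hm hj hk hl
    constructor
    · rintro ⟨h0, h⟩; exact ⟨h0, h j hj, h k hk, h l hl⟩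
    · rintro ⟨h0, h1, h2, h3⟩
      refine ⟨h0, fun m hmi => ?_⟩
      rcases hm m with rfl | rfl | rfl | rfl
      · exact absurd rfl hmi
      · exact h1
      · exact h2
      · exact h3
  have mW0 := mW 0 1 2 3 (by decide) (by decide) (by decide) (by decide)
  have mW1 := mW 1 0 2 3 (by decide) (by decide) (by decide) (by decide)
  have mW2 := mW 2 0 1 3 (by decide) (by decide) (by decide) (by decide)
  have mW3 := mW 3 0 1 2 (by decide) (by decide) (by decide) (by decide)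
  have mZ : ∀ k l, x ∈ Ze a k l ↔ (bar a k x < 0 ∧ bar a l x < 0) := fun k l => Iff.rfl
  have hsum : ∑ m, (cl a m).indicator (fun _ => (1 : ℝ)) x =
      (if x ∈ T0 a then 1 else 0) + (if x ∈ Wc a 0 then 1 else 0) + (if x ∈ Wc a 1 then 1 else 0) +
      (if x ∈ Wc a 2 then 1 else 0) + (if x ∈ Wc a 3 then 1 else 0) +
      (if x ∈ Ze a 2 3 then 1 else 0) + (if x ∈ Ze a 1 3 then 1 else 0) +
      (if x ∈ Ze a 1 2 then 1 else 0) + (if x ∈ Ze a 0 3 then 1 else 0) +
      (if x ∈ Ze a 0 2 then 1 else 0) + (if x ∈ Ze a 0 1 then 1 else 0) := by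
    simp only [eT]
    simp only [Fin.sum_univ_succ, Fin.sum_univ_zero, cl]
    simp only [Matrix.cons_val_zero, Matrix.cons_val_succ, Fin.succ_zero_eq_one, add_zero]
    ring_nf
    rfl
  rw [hsum, mT, mW0, mW1, mW2, mW3, mZ, mZ, mZ, mZ, mZ, mZ]
  rcases lt_or_gt_of_ne (hz 0) with h0 | h0 <;> rcases lt_or_gt_of_ne (hz 1) with h1 | h1 <;>
    rcases lt_or_gt_of_ne (hz 2) with h2 | h2 <;> rcases lt_or_gt_of_ne (hz 3) with h3 | h3 <;>
    first
    | (exfalso; linarith)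
    | simp [h0, h1, h2, h3, h0.le, h1.le, h2.le, h3.le, h0.not_gt, h1.not_gt, h2.not_gt, h3.not_gt]

/-- **partition of integrals**: `π` is the position of the point (the identity, or the first
component of the pair) -/
theorem part_int (ha : ∀ i j, i ≠ j → dist (a i) (a j) = 1) {X : Type*} [MeasurableSpace X]
    {μ : Measure X} {P : X → E3} (hP : Measurable P)
    (hp : ∀ᵐ z ∂μ, Pl a (P z) ∧ ∀ k, bar a k (P z) ≠ 0) {F : X → ℝ} (hF : Integrable F μ) :
    ∫ z, F z ∂μ = ∑ m, ∫ z in P ⁻¹' (cl a m), F z ∂μ := by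
  have hm : ∀ m, MeasurableSet (P ⁻¹' (cl a m)) := fun m => hP (cl_open ha m).measurableSet
  have h1 : ∀ m, ∫ z in P ⁻¹' (cl a m), F z ∂μ = ∫ z, (P ⁻¹' (cl a m)).indicator F z ∂μ :=
    fun m => (integral_indicator (hm m)).symm
  simp only [h1]
  rw [← integral_finset_sum _ fun m _ => hF.indicator (hm m)]
  refine integral_congr_ae ?_
  filter_upwards [hp] with z hz
  have h2 := cl_sum ha hz.1 hz.2
  have h3 : ∀ m, (P ⁻¹' (cl a m)).indicator F z = (cl a m).indicator (fun _ => (1 : ℝ)) (P z) * F z := by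
    intro m
    by_cases h : P z ∈ cl a m
    · rw [indicator_of_mem h, indicator_of_mem (show z ∈ P ⁻¹' (cl a m) from h), one_mul]
    · rw [indicator_of_notMem h, indicator_of_notMem (show z ∉ P ⁻¹' (cl a m) from h), zero_mul]
  simp only [h3]
  rw [← Finset.sum_mul, h2, one_mul]

/-- the sum over the cells, written out -/
theorem cl_expand (f : Set E3 → ℝ) : ∑ m, f (cl a m) = f (T0 a) +
    (f (Wc a 0) + f (Wc a 1) + f (Wc a 2) + f (Wc a 3)) +
    (f (Ze a 2 3) + f (Ze a 1 3) + f (Ze a 1 2) + f (Ze a 0 3) + f (Ze a 0 2) + f (Ze a 0 1)) := by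
  have h : ∑ m, f (cl a m) = f (cl a 0) + f (cl a 1) + f (cl a 2) + f (cl a 3) + f (cl a 4) +
      f (cl a 5) + f (cl a 6) + f (cl a 7) + f (cl a 8) + f (cl a 9) + f (cl a 10) := by
    simp only [Fin.sum_univ_succ, Fin.sum_univ_zero]
    simp only [add_zero, ← add_assoc]
    rfl
  rw [h]
  have e0 : cl a 0 = T0 a := rfl
  have e1 : cl a 1 = Wc a 0 := rfl
  have e2 : cl a 2 = Wc a 1 := rfl
  have e3 : cl a 3 = Wc a 2 := rfl
  have e4 : cl a 4 = Wc a 3 := rfl
  have e5 : cl a 5 = Ze a 2 3 := rfl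
  have e6 : cl a 6 = Ze a 1 3 := rfl
  have e7 : cl a 7 = Ze a 1 2 := rfl
  have e8 : cl a 8 = Ze a 0 3 := rfl
  have e9 : cl a 9 = Ze a 0 2 := rfl
  have e10 : cl a 10 = Ze a 0 1 := rfl
  rw [e0, e1, e2, e3, e4, e5, e6, e7, e8, e9, e10]
  ring

/-- the planes of the faces -/
theorem bar_zero_null (ha : ∀ i j, i ≠ j → dist (a i) (a j) = 1) (k : Fin 4) :
    volume {x | bar a k x = 0} = 0 := by
  have g := gram_of_dist ha
  have hp : MeasurePreserving (fun x : E3 => x - (cen a - (1 / 3 : ℝ) • al a k)) volume volume :=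
    measurePreserving_sub_right volume _
  have e : {x | bar a k x = 0} =
      (fun x : E3 => x - (cen a - (1 / 3 : ℝ) • al a k)) ⁻¹' {y | ⟪al a k, y⟫ = 0} := by
    ext x
    simp only [mem_setOf_eq, mem_preimage]
    have h1 : x - (cen a - (1 / 3 : ℝ) • al a k) = (x - cen a) + (1 / 3 : ℝ) • al a k := by abel
    rw [h1, inner_add_right, real_inner_smul_right, g.diag]
    unfold bar
    constructor <;> intro h <;> linarith
  rw [e, hp.measure_preimage]
  · exact null_plane (g.ne k)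
  · exact (measurableSet_eq_fun (by fun_prop) measurable_const).nullMeasurableSet

/-- the cone at a vertex is the tetrahedron and the cell beyond the opposite face -/
theorem TC_split (ha : ∀ i j, i ≠ j → dist (a i) (a j) = 1) {X : Type*} [MeasurableSpace X]
    {μ : Measure X} {P : X → E3} (hP : Measurable P)
    (hz : ∀ᵐ z ∂μ, ∀ k, bar a k (P z) ≠ 0) {F : X → ℝ} (hF : Integrable F μ) (i : Fin 4) :
    ∫ z in P ⁻¹' (TC a i), F z ∂μ = (∫ z in P ⁻¹' (T0 a), F z ∂μ) + ∫ z in P ⁻¹' (Wc a i), F z ∂μ := by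
  have hm1 : MeasurableSet (P ⁻¹' (TC a i)) := hP (TC_open ha i).measurableSet
  have hm2 : MeasurableSet (P ⁻¹' (T0 a)) := hP (T0_open a).measurableSet
  have hm3 : MeasurableSet (P ⁻¹' (Wc a i)) := hP (Wc_open ha i).measurableSet
  rw [← setIntegral_union _ hm3 hF.integrableOn hF.integrableOn]
  · refine setIntegral_congr_set ?_
    filter_upwards [hz] with z hz
    refine propext ?_
    show P z ∈ TC a i ↔ P z ∈ T0 a ∨ P z ∈ Wc a i
    rw [TC_bar ha]
    constructor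
    · intro h
      rcases lt_or_gt_of_ne (hz i) with h1 | h1
      · exact Or.inr ⟨h1, h⟩
      · refine Or.inl fun k => ?_
        by_cases hk : k = i
        · rw [hk]; exact h1
        · exact h k hk
    · rintro (h | h)
      · exact fun k _ => h k
      · exact h.2
  · rw [Set.disjoint_left]
    intro z h1 h2
    have h3 : 0 < bar a i (P z) := h1 i
    have h4 : bar a i (P z) < 0 := h2.1
    linarith

/-! ### planes and the pair measure -/

/-- **planes which meet the interior of the body carry no mass of the pair measure** -/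
theorem plane_null {σ : Measure (E3 × E3)} [IsFiniteMeasure σ] {K : Set E3} (hK : IsCompact K)
    (hσ : ∀ᵐ z ∂σ, z.1 ∈ K ∧ z.2 ∈ K)
    (hσ1 : ∀ᵐ z ∂σ, ‖z.1 - z.2‖ = 1 ∧ ∀ y ∈ K, ⟪y, z.1 - z.2⟫ ≤ ⟪z.1, z.1 - z.2⟫)
    {n : ℕ∞} (hn : 1 ≤ n)
    (hU : ∀ G : E3 → E3, ContDiff ℝ n G → ∫ z, ⟪G z.1, z.1 - z.2⟫ ∂σ = ∫ x in K, dvg G x)
    {ν : E3} (hν : ν ≠ 0) {x0 : E3} {ε : ℝ} (hε : 0 < ε) (hb : closedBall x0 ε ⊆ K) :
    σ {z | ⟪ν, z.1⟫ = ⟪ν, x0⟫} = 0 := by
  set G : E3 → E3 := fun x => (1 : ℝ) • (x - x0) with hG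
  have hGc : ContDiff ℝ n G := by
    rw [hG]
    exact (contDiff_id.sub contDiff_const).const_smul (1 : ℝ)
  have hd : ∀ x, dvg G x = 3 := fun x => by rw [hG, dvg_radial]; norm_num
  have key : ∀ w : E3, ∫ z in {z : E3 × E3 | ⟪w, x0⟫ < ⟪w, z.1⟫}, ⟪G z.1, z.1 - z.2⟫ ∂σ =
      ∫ x in K ∩ {x | ⟪w, x0⟫ < ⟪w, x⟫}, (3 : ℝ) := by
    intro w
    have h1 := S2_cell hK hσ hn hU (ι := Unit) (fun _ => w) (fun _ => ⟪w, x0⟫) hGc (by
      intro _ x hx
      rw [hG]
      show ⟪w, (1 : ℝ) • (x - x0)⟫ = 0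
      rw [one_smul, inner_sub_right, hx, sub_self])
    have e1 : {z : E3 × E3 | z.1 ∈ Cel (fun _ : Unit => w) (fun _ => ⟪w, x0⟫)} =
        {z | ⟪w, x0⟫ < ⟪w, z.1⟫} := by
      ext z
      simp [Cel]
    have e2 : Cel (fun _ : Unit => w) (fun _ => ⟪w, x0⟫) = {x | ⟪w, x0⟫ < ⟪w, x⟫} := by
      ext z
      simp [Cel]
    rw [e1, e2] at h1
    rw [h1]
    exact integral_congr_ae (Filter.Eventually.of_forall fun x => hd x)
  have hcont : Continuous (fun z : E3 × E3 => ⟪G z.1, z.1 - z.2⟫) := by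
    have := hGc.continuous
    fun_prop
  obtain ⟨B, hB⟩ := (hK.prod hK).bddAbove_image (hcont.abs).continuousOn
  have hint : Integrable (fun z : E3 × E3 => ⟪G z.1, z.1 - z.2⟫) σ := by
    refine Integrable.of_bound hcont.aestronglyMeasurable B ?_
    filter_upwards [hσ] with z hz
    exact hB ⟨z, ⟨hz.1, hz.2⟩, rfl⟩
  have m1 : MeasurableSet {z : E3 × E3 | ⟪ν, x0⟫ < ⟪ν, z.1⟫} :=
    (isOpen_lt continuous_const (by fun_prop)).measurableSet
  have m2 : MeasurableSet {z : E3 × E3 | ⟪-ν, x0⟫ < ⟪-ν, z.1⟫} :=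
    (isOpen_lt continuous_const (by fun_prop)).measurableSet
  have m0 : MeasurableSet {z : E3 × E3 | ⟪ν, z.1⟫ = ⟪ν, x0⟫} :=
    (isClosed_eq (by fun_prop) continuous_const).measurableSet
  have hall := hU G hGc
  have hsum : ∫ z, ⟪G z.1, z.1 - z.2⟫ ∂σ =
      (∫ z in {z : E3 × E3 | ⟪ν, z.1⟫ = ⟪ν, x0⟫}, ⟪G z.1, z.1 - z.2⟫ ∂σ) +
      ((∫ z in {z : E3 × E3 | ⟪ν, x0⟫ < ⟪ν, z.1⟫}, ⟪G z.1, z.1 - z.2⟫ ∂σ) +
      ∫ z in {z : E3 × E3 | ⟪-ν, x0⟫ < ⟪-ν, z.1⟫}, ⟪G z.1, z.1 - z.2⟫ ∂σ) := by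
    rw [← setIntegral_union _ m2 hint.integrableOn hint.integrableOn,
      ← setIntegral_union _ (m1.union m2) hint.integrableOn hint.integrableOn]
    · rw [← setIntegral_univ]
      congr 2
      ext z
      simp only [mem_union, mem_setOf_eq, inner_neg_left, mem_univ, true_iff]
      rcases lt_trichotomy ⟪ν, z.1⟫ ⟪ν, x0⟫ with h | h | h
      · exact Or.inr (Or.inr (by linarith))
      · exact Or.inl h
      · exact Or.inr (Or.inl h)
    · rw [Set.disjoint_left]
      rintro z h1 (h2 | h2)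
      · simp only [mem_setOf_eq] at h1 h2; linarith
      · simp only [mem_setOf_eq, inner_neg_left] at h1 h2; linarith
    · rw [Set.disjoint_left]
      intro z h1 h2
      simp only [mem_setOf_eq, inner_neg_left] at h1 h2
      linarith
  have hvol : (∫ x in K ∩ {x | ⟪ν, x0⟫ < ⟪ν, x⟫}, (3 : ℝ)) +
      ∫ x in K ∩ {x | ⟪-ν, x0⟫ < ⟪-ν, x⟫}, (3 : ℝ) = ∫ x in K, (3 : ℝ) := by
    have hKm : MeasurableSet K := hK.isClosed.measurableSet
    have hKi : IntegrableOn (fun _ : E3 => (3 : ℝ)) K := by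
      rw [integrableOn_const_iff]
      exact Or.inr hK.measure_lt_top
    have n1 : MeasurableSet (K ∩ {x : E3 | ⟪ν, x0⟫ < ⟪ν, x⟫}) :=
      hKm.inter (isOpen_lt continuous_const (by fun_prop)).measurableSet
    have n2 : MeasurableSet (K ∩ {x : E3 | ⟪-ν, x0⟫ < ⟪-ν, x⟫}) :=
      hKm.inter (isOpen_lt continuous_const (by fun_prop)).measurableSet
    rw [← setIntegral_union _ n2 (hKi.mono_set inter_subset_left)
      (hKi.mono_set inter_subset_left)]
    · refine setIntegral_congr_set ?_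
      have hnull : volume {x : E3 | ⟪ν, x⟫ = ⟪ν, x0⟫} = 0 := by
        have hp : MeasurePreserving (fun x : E3 => x - x0) volume volume :=
          measurePreserving_sub_right volume _
        have e : {x : E3 | ⟪ν, x⟫ = ⟪ν, x0⟫} = (fun x : E3 => x - x0) ⁻¹' {y | ⟪ν, y⟫ = 0} := by
          ext x
          simp only [mem_setOf_eq, mem_preimage, inner_sub_right, sub_eq_zero]
        rw [e, hp.measure_preimage]
        · exact null_plane hν
        · exact (measurableSet_eq_fun (by fun_prop) measurable_const).nullMeasurableSet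
      have hae : ∀ᵐ x : E3, ⟪ν, x⟫ ≠ ⟪ν, x0⟫ := by
        rw [ae_iff]
        simpa using hnull
      filter_upwards [hae] with x hx
      refine propext ?_
      show (x ∈ K ∩ {x | ⟪ν, x0⟫ < ⟪ν, x⟫} ∨ x ∈ K ∩ {x | ⟪-ν, x0⟫ < ⟪-ν, x⟫}) ↔ x ∈ K
      simp only [mem_inter_iff, mem_setOf_eq, inner_neg_left]
      constructor
      · rintro (h | h)
        · exact h.1
        · exact h.1
      · intro h
        rcases lt_or_gt_of_ne hx with h1 | h1
        · exact Or.inr ⟨h, by linarith⟩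
        · exact Or.inl ⟨h, h1⟩
    · rw [Set.disjoint_left]
      rintro x ⟨_, h1⟩ ⟨_, h2⟩
      simp only [mem_setOf_eq, inner_neg_left] at h1 h2
      linarith
  have hzero : ∫ z in {z : E3 × E3 | ⟪ν, z.1⟫ = ⟪ν, x0⟫}, ⟪G z.1, z.1 - z.2⟫ ∂σ = 0 := by
    have h3 : ∫ x in K, dvg G x = ∫ x in K, (3 : ℝ) :=
      integral_congr_ae (Filter.Eventually.of_forall fun x => hd x)
    rw [h3, hsum, key ν, key (-ν), hvol] at hall
    linarith
  have hlow : ∀ᵐ z ∂σ, ε ≤ ⟪G z.1, z.1 - z.2⟫ := by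
    filter_upwards [hσ1] with z hz
    have h4 : x0 + ε • (z.1 - z.2) ∈ K := hb (by
      rw [mem_closedBall, dist_eq_norm, add_sub_cancel_left, norm_smul, hz.1, mul_one,
        Real.norm_of_nonneg hε.le])
    have h5 := hz.2 _ h4
    rw [inner_add_left, real_inner_smul_left, real_inner_self_eq_norm_sq, hz.1] at h5
    rw [hG]
    show ε ≤ ⟪(1 : ℝ) • (z.1 - x0), z.1 - z.2⟫
    rw [one_smul, inner_sub_left]
    linarith
  have hle : ε * σ.real {z | ⟪ν, z.1⟫ = ⟪ν, x0⟫} ≤ 0 := by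
    rw [← hzero]
    have h6 : ∫ z in {z : E3 × E3 | ⟪ν, z.1⟫ = ⟪ν, x0⟫}, ε ∂σ ≤
        ∫ z in {z : E3 × E3 | ⟪ν, z.1⟫ = ⟪ν, x0⟫}, ⟪G z.1, z.1 - z.2⟫ ∂σ := by
      refine integral_mono_ae (integrable_const _) hint.integrableOn ?_
      exact ae_restrict_of_ae hlow
    rw [setIntegral_const, smul_eq_mul, mul_comm] at h6
    exact h6
  have h7 : σ.real {z | ⟪ν, z.1⟫ = ⟪ν, x0⟫} = 0 :=
    le_antisymm (by
      by_contra hcon
      push Not at hcon
      have := mul_pos hε hcon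
      linarith) measureReal_nonneg
  rwa [measureReal_eq_zero_iff] at h7

end Helper14.MEI2
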