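import Pool.Agent.Helper14.MEI2.Part
import Pool.Agent.Helper93.MEI.Reduce

/-!
# Placed bodies: the planes of the faces meet the interior
-/

namespace Helper14.MEI2

open Set Metric MeasureTheory Real Helper80.CW Helper82.CW Helper14.CW Helper93.MEI Helper22.Sig
open scoped RealInnerProductSpace ENNReal

variable {a : Fin 4 → E3} {K : Set E3}

/-- bounds of the barycentric coordinates of a placed point -/
theorem bar_bounds (ha : ∀ i j, i ≠ j → dist (a i) (a j) = 1) {x : E3} (hp : Pl a x) (k : Fin 4) :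
    -(1 / 2) ≤ bar a k x ∧ bar a k x ≤ 1 := by
  have g := gram_of_dist ha
  have hs := bar_sum g x
  have hq := (pl_iff g).1 hp
  have q01 := hq 0 1 (by decide)
  have q02 := hq 0 2 (by decide)
  have q03 := hq 0 3 (by decide)
  have q10 := hq 1 0 (by decide)
  have q12 := hq 1 2 (by decide)
  have q13 := hq 1 3 (by decide)
  have q20 := hq 2 0 (by decide)
  have q21 := hq 2 1 (by decide)
  have q23 := hq 2 3 (by decide)
  have q30 := hq 3 0 (by decide)
  have q31 := hq 3 1 (by decide)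
  have q32 := hq 3 2 (by decide)
  fin_cases k
  · show -(1 / 2) ≤ bar a 0 x ∧ bar a 0 x ≤ 1
    constructor <;> linarith
  · show -(1 / 2) ≤ bar a 1 x ∧ bar a 1 x ≤ 1
    constructor <;> linarith
  · show -(1 / 2) ≤ bar a 2 x ∧ bar a 2 x ≤ 1
    constructor <;> linarith
  · show -(1 / 2) ≤ bar a 3 x ∧ bar a 3 x ≤ 1
    constructor <;> linarith

/-- the plane of every face meets the interior of a placed body -/
theorem placed_plane (hK : IsCompact K) (hc : Convex ℝ K) (hw : Width1 K)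
    (ha : ∀ i j, i ≠ j → dist (a i) (a j) = 1) (hp : ∀ x ∈ K, Pl a x) (k : Fin 4) :
    ∃ x0 ∈ interior K, bar a k x0 = 0 := by
  have g := gram_of_dist ha
  have hne := hw.nonempty
  obtain ⟨p, hpK, hp1⟩ := supp_attained hK hne (al a k)
  obtain ⟨q, hqK, hq1⟩ := supp_attained hK hne (-al a k)
  have hwd := supp_width hK hw (al a k)
  have hn : ‖al a k‖ ^ 2 = 3 / 8 := by rw [← real_inner_self_eq_norm_sq, g.diag]
  have hn1 : 3 / 5 < ‖al a k‖ := by
    have h0 := norm_nonneg (al a k)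
    nlinarith
  have hdiff : bar a k p - bar a k q = 2 * ‖al a k‖ := by
    have e1 : ⟪al a k, p⟫ = supp K (al a k) := by rw [hp1, real_inner_comm]
    have e2 : -⟪al a k, q⟫ = supp K (-al a k) := by rw [hq1, inner_neg_right, real_inner_comm]
    unfold bar
    rw [inner_sub_right, inner_sub_right]
    linarith
  have bp := bar_bounds ha (hp p hpK) k
  have bq := bar_bounds ha (hp q hqK) k
  have hp0 : 0 < bar a k p := by linarith
  have hq0 : bar a k q < 0 := by linarith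
  have hcl : closure (interior K) = closure K :=
    hc.closure_interior_eq_closure_of_nonempty_interior (interior_nonempty hK hc hw)
  have hpc : p ∈ closure (interior K) := by rw [hcl]; exact subset_closure hpK
  have hqc : q ∈ closure (interior K) := by rw [hcl]; exact subset_closure hqK
  obtain ⟨p', hp'1, hp'2⟩ := mem_closure_iff.1 hpc {x | 0 < bar a k x}
    (isOpen_lt continuous_const (bar_cont a k)) hp0
  obtain ⟨q', hq'1, hq'2⟩ := mem_closure_iff.1 hqc {x | bar a k x < 0}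
    (isOpen_lt (bar_cont a k) continuous_const) hq0
  have h1 : 0 < bar a k p' := hp'1
  have h2 : bar a k q' < 0 := hq'1
  set t : ℝ := bar a k p' / (bar a k p' - bar a k q') with ht
  have hd : 0 < bar a k p' - bar a k q' := by linarith
  have ht0 : 0 ≤ t := (div_pos h1 hd).le
  have ht1 : 0 ≤ 1 - t := by
    rw [ht, sub_nonneg, div_le_one hd]
    linarith
  refine ⟨(1 - t) • p' + t • q', hc.interior hp'2 hq'2 ht1 ht0 (by ring), ?_⟩
  have e : bar a k ((1 - t) • p' + t • q') = (1 - t) * bar a k p' + t * bar a k q' := by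
    have e1 : (1 - t) • p' + t • q' - cen a = (1 - t) • (p' - cen a) + t • (q' - cen a) := by
      module
    unfold bar
    rw [e1, inner_add_right, real_inner_smul_right, real_inner_smul_right]
    ring
  rw [e, ht]
  field_simp
  ring

/-- **the pair measure does not charge the planes of the faces of a placed body** -/
theorem placed_ae (hK : IsCompact K) (hc : Convex ℝ K) (hw : Width1 K)
    (ha : ∀ i j, i ≠ j → dist (a i) (a j) = 1) (hp : ∀ x ∈ K, Pl a x)
    {σ : Measure (E3 × E3)} [IsFiniteMeasure σ] (hσ : ∀ᵐ z ∂σ, z.1 ∈ K ∧ z.2 ∈ K)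
    (hσ1 : ∀ᵐ z ∂σ, ‖z.1 - z.2‖ = 1 ∧ ∀ y ∈ K, ⟪y, z.1 - z.2⟫ ≤ ⟪z.1, z.1 - z.2⟫)
    {n : ℕ∞} (hn : 1 ≤ n)
    (hU : ∀ G : E3 → E3, ContDiff ℝ n G → ∫ z, ⟪G z.1, z.1 - z.2⟫ ∂σ = ∫ x in K, dvg G x) :
    ∀ᵐ z ∂σ, Pl a z.1 ∧ ∀ k, bar a k z.1 ≠ 0 := by
  have g := gram_of_dist ha
  have h1 : ∀ k, ∀ᵐ z ∂σ, bar a k z.1 ≠ 0 := by
    intro k
    obtain ⟨x0, hx0, hb0⟩ := placed_plane hK hc hw ha hp k
    obtain ⟨ε, hε, hball⟩ := Metric.isOpen_iff.1 isOpen_interior x0 hx0
    have hball2 : closedBall x0 (ε / 2) ⊆ K :=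
      (closedBall_subset_ball (by linarith)).trans (hball.trans interior_subset)
    have h2 := plane_null hK hσ hσ1 hn hU (g.ne k) (half_pos hε) hball2
    rw [ae_iff]
    refine measure_mono_null ?_ h2
    intro z hz
    have hz1 : bar a k z.1 = 0 := by simpa using hz
    show ⟪al a k, z.1⟫ = ⟪al a k, x0⟫
    unfold bar at hz1 hb0
    rw [inner_sub_right] at hz1 hb0
    linarith
  have h2 : ∀ᵐ z ∂σ, ∀ k, bar a k z.1 ≠ 0 := ae_all_iff.2 h1
  filter_upwards [hσ, h2] with z hz hz2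
  exact ⟨hp _ hz.1, hz2⟩

/-- the same for the volume -/
theorem placed_vol_ae (hK : IsCompact K) (ha : ∀ i j, i ≠ j → dist (a i) (a j) = 1)
    (hp : ∀ x ∈ K, Pl a x) : ∀ᵐ x ∂(volume.restrict K), Pl a x ∧ ∀ k, bar a k x ≠ 0 := by
  have h1 : ∀ k, ∀ᵐ x : E3, bar a k x ≠ 0 := by
    intro k
    rw [ae_iff]
    simpa using bar_zero_null ha k
  have h2 : ∀ᵐ x : E3, ∀ k, bar a k x ≠ 0 := ae_all_iff.2 h1
  filter_upwards [ae_restrict_mem hK.isClosed.measurableSet, ae_restrict_of_ae h2] with x hx hx2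
  exact ⟨hp _ hx, hx2⟩

/-- integrals over the body -/
theorem part_vol (hK : IsCompact K) (ha : ∀ i j, i ≠ j → dist (a i) (a j) = 1)
    (hp : ∀ x ∈ K, Pl a x) {F : E3 → ℝ} (hF : IntegrableOn F K) :
    ∫ x in K, F x = ∑ m, ∫ x in K ∩ cl a m, F x := by
  have h := part_int ha measurable_id (placed_vol_ae hK ha hp) hF
  rw [h]
  refine Finset.sum_congr rfl fun m _ => ?_
  rw [Measure.restrict_restrict (measurable_id (cl_open ha m).measurableSet), inter_comm]
  rfl

/-- the volume of the body -/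
theorem part_volume (hK : IsCompact K) (ha : ∀ i j, i ≠ j → dist (a i) (a j) = 1)
    (hp : ∀ x ∈ K, Pl a x) : volume.real K = volume.real (K ∩ T0 a) +
      (volume.real (K ∩ Wc a 0) + volume.real (K ∩ Wc a 1) + volume.real (K ∩ Wc a 2) +
        volume.real (K ∩ Wc a 3)) +
      (volume.real (K ∩ Ze a 2 3) + volume.real (K ∩ Ze a 1 3) + volume.real (K ∩ Ze a 1 2) +
        volume.real (K ∩ Ze a 0 3) + volume.real (K ∩ Ze a 0 2) + volume.real (K ∩ Ze a 0 1)) := by
  have hi : IntegrableOn (fun _ : E3 => (1 : ℝ)) K := by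
    rw [integrableOn_const_iff]
    exact Or.inr hK.measure_lt_top
  have h := part_vol hK ha hp hi
  simp only [setIntegral_const, smul_eq_mul, mul_one] at h
  rw [h]
  exact cl_expand (a := a) fun S => volume.real (K ∩ S)

/-- the mass of the pair measure -/
theorem part_mass (ha : ∀ i j, i ≠ j → dist (a i) (a j) = 1) {σ : Measure (E3 × E3)}
    [IsFiniteMeasure σ] (hp : ∀ᵐ z ∂σ, Pl a z.1 ∧ ∀ k, bar a k z.1 ≠ 0) {F : E3 × E3 → ℝ}
    (hF : Integrable F σ) : ∫ z, F z ∂σ = (∫ z in {z | z.1 ∈ T0 a}, F z ∂σ) +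
      ((∫ z in {z | z.1 ∈ Wc a 0}, F z ∂σ) + (∫ z in {z | z.1 ∈ Wc a 1}, F z ∂σ) +
        (∫ z in {z | z.1 ∈ Wc a 2}, F z ∂σ) + ∫ z in {z | z.1 ∈ Wc a 3}, F z ∂σ) +
      ((∫ z in {z | z.1 ∈ Ze a 2 3}, F z ∂σ) + (∫ z in {z | z.1 ∈ Ze a 1 3}, F z ∂σ) +
        (∫ z in {z | z.1 ∈ Ze a 1 2}, F z ∂σ) + (∫ z in {z | z.1 ∈ Ze a 0 3}, F z ∂σ) +
        (∫ z in {z | z.1 ∈ Ze a 0 2}, F z ∂σ) + ∫ z in {z | z.1 ∈ Ze a 0 1}, F z ∂σ) := by
  have h := part_int ha measurable_fst hp hF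
  rw [h]
  exact cl_expand (a := a) fun S => ∫ z in Prod.fst ⁻¹' S, F z ∂σ

end Helper14.MEI2
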