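import Pool.Agent.Helper14.MEI2.Vol

/-!
# Steiner formula with Blaschke's relation for all bodies of constant width (lower bound)
-/

namespace Helper14.MEI2

open Set Metric MeasureTheory Helper80.CW Helper82.CW Filter
open scoped ContDiff Topology RealInnerProductSpace Real

theorem Ht_ge {H : E3 → ℝ} {R : ℝ} (h : Supp H R) {ε : ℝ} (hε : 0 < ε) (x : E3) :
    H x ≤ Ht H ε x + R * ε * ‖x‖ := by
  have h1 : H x - R * ε * ‖x‖ = ∫ y, eta ε y * (H x - R * ε * ‖x‖) := by
    rw [integral_mul_const, eta_integral hε, one_mul]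
  have h0 : H x - R * ε * ‖x‖ ≤ Ht H ε x := by
    rw [h1]
    unfold Ht
    apply integral_mono (eta_mul_integrable hε continuous_const) (Ht_int h hε x _)
    intro y
    simp only
    by_cases hy : ε ≤ ‖y‖
    · rw [eta_zero hε hy]
      simp
    · apply mul_le_mul_of_nonneg_left _ (eta_nonneg hε y)
      have h2 := h.sub (x - ‖x‖ • y) (‖x‖ • y)
      rw [sub_add_cancel] at h2
      have h3 := h.bound (‖x‖ • y)
      rw [norm_smul, norm_norm] at h3
      have h4 : R * (‖x‖ * ‖y‖) ≤ R * ε * ‖x‖ := by
        have : ‖x‖ * ‖y‖ ≤ ‖x‖ * ε := mul_le_mul_of_nonneg_left (not_le.1 hy).le (norm_nonneg _)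
        calc R * (‖x‖ * ‖y‖) ≤ R * (‖x‖ * ε) := mul_le_mul_of_nonneg_left this h.Rnn
          _ = _ := by ring
      linarith
  linarith

theorem cw_le {ε : ℝ} (hε : 0 < ε) : cw ε ≤ 1 + ε := by
  have h1 : 1 + ε = ∫ y, eta ε y * (1 + ε) := by
    rw [integral_mul_const, eta_integral hε, one_mul]
  rw [h1]
  apply integral_mono (eta_mul_integrable hε (by fun_prop))
    (eta_mul_integrable hε continuous_const)
  intro y
  simp only
  by_cases hy : ε ≤ ‖y‖
  · rw [eta_zero hε hy]
    simp
  · apply mul_le_mul_of_nonneg_left _ (eta_nonneg hε y)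
    have := norm_sub_le (e 0) y
    rw [norm_e] at this
    linarith

theorem cw_tendsto : Tendsto cw (𝓝[>] 0) (𝓝 1) := by
  have h1 : Tendsto (fun ε : ℝ => 1 - ε) (𝓝[>] 0) (𝓝 1) := by
    have : Continuous (fun ε : ℝ => 1 - ε) := by fun_prop
    have h3 := this.tendsto 0
    simp only [sub_zero] at h3
    exact h3.mono_left nhdsWithin_le_nhds
  have h2 : Tendsto (fun ε : ℝ => 1 + ε) (𝓝[>] 0) (𝓝 1) := by
    have : Continuous (fun ε : ℝ => 1 + ε) := by fun_prop
    have h3 := this.tendsto 0
    simp only [add_zero] at h3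
    exact h3.mono_left nhdsWithin_le_nhds
  apply tendsto_of_tendsto_of_tendsto_of_le_of_le' h1 h2
  · filter_upwards [self_mem_nhdsWithin] with ε hε using cw_ge hε
  · filter_upwards [self_mem_nhdsWithin] with ε hε using cw_le hε

/-- the polynomial -/
noncomputable def st (V w1 w2 : ℝ) : ℝ := w2 / w1 * (V - π * w1 ^ 3 / 6) + π * w2 ^ 3 / 6

theorem vp_st (A : ℝ) {w1 : ℝ} (hw : w1 ≠ 0) (w2 : ℝ) : vp A w2 = st (vp A w1) w1 w2 := by
  unfold vp st
  field_simp
  ring

section
variable {K : Set E3}

theorem steiner (hK : IsCompact K) (hc : Convex ℝ K) (hw : Width1 K) {δ : ℝ} (hδ : 0 ≤ δ) :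
    ENNReal.ofReal (st (volume K).toReal 1 (1 + 2 * δ)) ≤ volume (cthickening δ K) := by
  obtain ⟨k0, hk0⟩ := hw.nonempty
  obtain ⟨R, hR⟩ := H0_supp hK hw hk0
  set K0 : Set E3 := (fun y => y + k0) ⁻¹' K with hK0
  have hne := hw.nonempty
  have hK0c : IsCompact K0 := by
    have : K0 = (fun y => y - k0) '' K := by
      ext y
      constructor
      · intro hy
        exact ⟨y + k0, hy, by simp⟩
      · rintro ⟨z, hz, rfl⟩
        simpa [hK0] using hz
    rw [this]
    exact hK.image (by fun_prop)
  have hvol : volume K0 = volume K := measure_preimage_add_right volume k0 K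
  have hthick : volume (cthickening δ K0) = volume (cthickening δ K) := by
    have : cthickening δ K0 = (fun y => y + k0) ⁻¹' (cthickening δ K) := by
      have h1 := (IsometryEquiv.addRight k0).isometry
      ext y
      simp only [mem_cthickening_iff, mem_preimage]
      have : Metric.infEDist y K0 = Metric.infEDist (y + k0) K := by
        have h2 := Metric.infEDist_image (t := K0) (x := y) h1
        have h3 : (IsometryEquiv.addRight k0) '' K0 = K := by
          rw [hK0]
          exact (IsometryEquiv.addRight k0).toEquiv.image_preimage K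
        rw [h3] at h2
        exact h2.symm
      rw [this]
    rw [this]
    exact measure_preimage_add_right volume k0 _
  rw [← hthick, ← hvol]
  have hstep : ∀ ε : ℝ, 0 < ε → ε < 1 →
      ENNReal.ofReal (st (volume K0).toReal (cw ε + 2 * (R * ε)) (cw ε + 2 * δ)) ≤
        volume (cthickening (R * ε) (cthickening δ K0)) := by
    intro ε hε hε1
    have hRε : 0 ≤ R * ε := mul_nonneg hR.Rnn hε.le
    have hS := Ht_SSup hR hε hε1
    set f := Ht (H0 K k0) ε with hf
    set c := cw ε with hcdef
    have hcp := hS.cpos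
    have hS1 := SSup_par hS hRε
    have hS2 := SSup_par hS hδ
    -- (a)
    have ha : K0 ⊆ Bd (fun x => f x + R * ε * ‖x‖) := by
      intro y hy z
      have h1 := supp_ge hK hne z (show y + k0 ∈ K from hy)
      have h2 := Ht_ge hR hε z
      rw [inner_add_left] at h1
      unfold H0 at h2
      rw [hf]
      unfold H0
      linarith
    have ha1 := (measure_mono ha).trans (volume_Bd_le hS1)
    rw [oddA_par] at ha1
    -- (b)
    have hb : Bd (fun x => f x + δ * ‖x‖) ⊆ cthickening (R * ε + δ) K0 := by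
      refine body_sub hK hc hw hk0 (f := fun x => f x + δ * ‖x‖) (δ := R * ε + δ) ?_ (by positivity)
      intro x
      have := Ht_le hR hε x
      have h3 : (R * ε + δ) * ‖x‖ = R * ε * ‖x‖ + δ * ‖x‖ := by ring
      rw [h3]
      linarith
    have hb1 := (volume_Bd_ge hS2).trans (measure_mono hb)
    rw [oddA_par] at hb1
    rw [cthickening_cthickening hRε hδ]
    refine le_trans (ENNReal.ofReal_le_ofReal ?_) hb1
    have hw1 : 0 < c + 2 * (R * ε) := by positivity
    rw [vp_st (oddA f c) hw1.ne' (c + 2 * δ)]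
    have hv : (volume K0).toReal ≤ vp (oddA f c) (c + 2 * (R * ε)) := by
      by_cases hpos : 0 ≤ vp (oddA f c) (c + 2 * (R * ε))
      · exact ENNReal.toReal_le_of_le_ofReal hpos ha1
      · exfalso
        rw [ENNReal.ofReal_of_nonpos (not_le.1 hpos).le] at ha1
        have h33 := cw_main K hK hc hw
        rw [← hvol] at h33
        have h34 := h33.trans ha1
        rw [nonpos_iff_eq_zero, ENNReal.ofReal_eq_zero] at h34
        have := Real.pi_pos
        linarith
    unfold st
    have hq : 0 ≤ (c + 2 * δ) / (c + 2 * (R * ε)) := by positivity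
    have := mul_le_mul_of_nonneg_left hv hq
    nlinarith
  have hlim1 : Tendsto (fun ε : ℝ => volume (cthickening (R * ε) (cthickening δ K0))) (𝓝[>] 0)
      (𝓝 (volume (cthickening δ K0))) := by
    have hcc : IsCompact (cthickening δ K0) := hK0c.cthickening
    have h1 := tendsto_measure_cthickening_of_isCompact (μ := (volume : Measure E3)) hcc
    have h2 : Tendsto (fun ε : ℝ => R * ε) (𝓝[>] 0) (𝓝 0) := by
      have : Continuous (fun ε : ℝ => R * ε) := by fun_prop
      have h3 := this.tendsto 0
      simp only [mul_zero] at h3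
      exact h3.mono_left nhdsWithin_le_nhds
    exact h1.comp h2
  have hlim2 : Tendsto (fun ε : ℝ => ENNReal.ofReal
      (st (volume K0).toReal (cw ε + 2 * (R * ε)) (cw ε + 2 * δ))) (𝓝[>] 0)
      (𝓝 (ENNReal.ofReal (st (volume K0).toReal 1 (1 + 2 * δ)))) := by
    apply ENNReal.tendsto_ofReal
    have h2 : Tendsto (fun ε : ℝ => 2 * (R * ε)) (𝓝[>] 0) (𝓝 0) := by
      have : Continuous (fun ε : ℝ => 2 * (R * ε)) := by fun_prop
      have h3 := this.tendsto 0
      simp only [mul_zero] at h3
      exact h3.mono_left nhdsWithin_le_nhds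
    have h3 : Tendsto (fun ε : ℝ => cw ε + 2 * (R * ε)) (𝓝[>] 0) (𝓝 1) := by
      simpa using cw_tendsto.add h2
    have h4 : Tendsto (fun ε : ℝ => cw ε + 2 * δ) (𝓝[>] 0) (𝓝 (1 + 2 * δ)) :=
      cw_tendsto.add_const _
    unfold st
    exact ((h4.div h3 one_ne_zero).mul (tendsto_const_nhds.sub
      (((h3.pow 3).const_mul π).div_const 6))).add (((h4.pow 3).const_mul π).div_const 6)
  apply le_of_tendsto_of_tendsto hlim2 hlim1
  have hlt : ∀ᶠ ε : ℝ in 𝓝 0, ε < 1 := eventually_lt_nhds one_pos
  filter_upwards [self_mem_nhdsWithin, hlt.filter_mono nhdsWithin_le_nhds] with ε h1 h2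
  exact hstep ε h1 h2

/-- (L2): the volume of the outer layer -/
theorem layer_volume (hK : IsCompact K) (hc : Convex ℝ K) (hw : Width1 K) {δ : ℝ} (hδ : 0 ≤ δ) :
    (volume K).toReal + (2 * (volume K).toReal + 2 * π / 3) * δ ≤
      (volume (cthickening δ K)).toReal := by
  have h1 := steiner hK hc hw hδ
  have hfin : volume (cthickening δ K) ≠ ⊤ := (hK.cthickening).measure_ne_top
  have h2 := (ENNReal.ofReal_le_iff_le_toReal hfin).1 h1
  refine le_trans ?_ h2
  unfold st
  have hpi := Real.pi_pos
  have : 0 ≤ π * δ ^ 2 := by positivity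
  have : 0 ≤ π * δ ^ 3 := by positivity
  nlinarith

end

end Helper14.MEI2
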