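import Pool.Agent.Helper14.MEI2.Cone

/-!
# The regular tetrahedron of edge `1`: half spaces, volume
-/

namespace Helper14.MEI2

open Set Metric MeasureTheory Real Helper80.CW Helper82.CW Helper14.CW
open scoped RealInnerProductSpace ENNReal

variable {a : Fin 4 → E3}

/-- the tetrahedron by half spaces -/
def TT (a : Fin 4 → E3) : Set E3 := {x | ∀ k, -(1 / 8) ≤ ⟪al a k, x - cen a⟫}

theorem TT_closed (a : Fin 4 → E3) : IsClosed (TT a) := by
  have h : TT a = ⋂ k : Fin 4, {x | -(1 / 8) ≤ ⟪al a k, x - cen a⟫} := by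
    ext x
    simp [TT]
  rw [h]
  exact isClosed_iInter fun k => isClosed_le continuous_const (by fun_prop)

theorem TT_convex (a : Fin 4 → E3) : Convex ℝ (TT a) := by
  intro x hx y hy p q hp hq hpq k
  have h1 := hx k
  have h2 := hy k
  have e : p • x + q • y - cen a = p • (x - cen a) + q • (y - cen a) := by
    rw [smul_sub, smul_sub]
    have : cen a = p • cen a + q • cen a := by rw [← add_smul, hpq, one_smul]
    nth_rewrite 1 [this]
    abel
  rw [e, inner_add_right, real_inner_smul_right, real_inner_smul_right]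
  nlinarith

theorem vertex_mem (ha : ∀ i j, i ≠ j → dist (a i) (a j) = 1) (i : Fin 4) : a i ∈ TT a := by
  intro k
  have g := gram_of_dist ha
  show -(1 / 8) ≤ ⟪al a k, al a i⟫
  by_cases h : k = i
  · subst h
    rw [g.diag]; norm_num
  · rw [g.off k i h]; norm_num

/-- the tetrahedron is the intersection of four half spaces -/
theorem hull_eq (ha : ∀ i j, i ≠ j → dist (a i) (a j) = 1) : convexHull ℝ (range a) = TT a := by
  have g := gram_of_dist ha
  apply Subset.antisymm
  · refine convexHull_min ?_ (TT_convex a)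
    rintro _ ⟨i, rfl⟩
    exact vertex_mem ha i
  · intro x hx
    set w : Fin 4 → ℝ := fun k => 2 * ⟪al a k, x - cen a⟫ + 1 / 4 with hw
    have hw0 : ∀ k, 0 ≤ w k := fun k => by
      have := hx k
      simp only [hw]
      linarith
    have hs : ⟪al a 0, x - cen a⟫ + ⟪al a 1, x - cen a⟫ + ⟪al a 2, x - cen a⟫ +
        ⟪al a 3, x - cen a⟫ = (0 : ℝ) := by
      rw [← inner_add_left, ← inner_add_left, ← inner_add_left, g.sum, inner_zero_left]
    have hw1 : ∑ k, w k = 1 := by
      rw [Fin.sum_univ_four]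
      simp only [hw]
      linarith
    have hx2 : x = ∑ k, w k • a k := by
      have h1 := g.tight (x - cen a)
      have h2 : ∀ k, a k = al a k + cen a := fun k => by unfold al; abel
      have h3 : al a 3 = -(al a 0 + al a 1 + al a 2) := by
        have := g.sum
        rw [eq_neg_iff_add_eq_zero]
        rw [← this]
        abel
      have h4 : ∑ k, w k • a k = (∑ k, w k • al a k) + cen a := by
        have : (∑ k, w k • al a k) + cen a = (∑ k, w k • al a k) + (∑ k, w k) • cen a := by
          rw [hw1, one_smul]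
        rw [this, Finset.sum_smul, ← Finset.sum_add_distrib]
        refine Finset.sum_congr rfl fun k _ => ?_
        rw [← smul_add, ← h2]
      rw [h4, Fin.sum_univ_four]
      have h5 : x - cen a = w 0 • al a 0 + w 1 • al a 1 + w 2 • al a 2 + w 3 • al a 3 := by
        conv_lhs => rw [h1]
        simp only [hw]
        rw [h3]
        module
      rw [← h5]
      abel
    rw [hx2]
    exact (convex_convexHull ℝ (range a)).sum_mem (fun k _ => hw0 k) hw1
      (fun k _ => subset_convexHull ℝ _ (mem_range_self k))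

/-- the tetrahedron in coordinates `(z, (x, y))` -/
def TA : Set (ℝ × (ℝ × ℝ)) :=
  {q | |q.2.1| ≤ √2 / 2 * q.1 + 1 / 4 ∧ |q.2.2| ≤ 1 / 4 - √2 / 2 * q.1}

theorem TA_meas : MeasurableSet TA := by
  have h1 : Measurable (fun q : ℝ × (ℝ × ℝ) => |q.2.1|) := (measurable_snd.fst).abs
  have h2 : Measurable (fun q : ℝ × (ℝ × ℝ) => |q.2.2|) := (measurable_snd.snd).abs
  have h3 : Measurable (fun q : ℝ × (ℝ × ℝ) => √2 / 2 * q.1 + 1 / 4) :=
    (measurable_fst.const_mul _).add_const _
  have h4 : Measurable (fun q : ℝ × (ℝ × ℝ) => 1 / 4 - √2 / 2 * q.1) :=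
    measurable_const.sub (measurable_fst.const_mul _)
  exact (measurableSet_le h1 h3).inter (measurableSet_le h2 h4)

theorem vol_TA : volume TA = ENNReal.ofReal (√2 / 12) := by
  have s2 : √2 * √2 = 2 := Real.mul_self_sqrt (by norm_num)
  have sp : 0 < √2 := by positivity
  rw [Measure.volume_eq_prod, Measure.prod_apply TA_meas]
  have h1 : ∀ z : ℝ, volume (Prod.mk z ⁻¹' TA) =
      (Ioc (-(√2 / 4)) (√2 / 4)).indicator (fun z => ENNReal.ofReal (1 / 4 - 2 * z ^ 2)) z := by
    intro z
    have e : Prod.mk z ⁻¹' TA = Icc (-(√2 / 2 * z + 1 / 4)) (√2 / 2 * z + 1 / 4) ×ˢ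
        Icc (-(1 / 4 - √2 / 2 * z)) (1 / 4 - √2 / 2 * z) := by
      ext ⟨x, y⟩
      simp only [TA, mem_preimage, mem_setOf_eq, mem_prod, mem_Icc, abs_le]
    rw [e, Measure.volume_eq_prod, Measure.prod_prod, Real.volume_Icc, Real.volume_Icc]
    by_cases hz : z ∈ Ioc (-(√2 / 4)) (√2 / 4)
    · rw [indicator_of_mem hz, ← ENNReal.ofReal_mul (by
        have := hz.1
        nlinarith)]
      congr 1
      linear_combination (-z ^ 2) * s2
    · rw [indicator_of_notMem hz]
      rw [mem_Ioc, not_and_or, not_lt, not_le] at hz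
      rcases hz with h | h
      · rw [ENNReal.ofReal_of_nonpos (p := √2 / 2 * z + 1 / 4 - -(√2 / 2 * z + 1 / 4)), zero_mul]
        nlinarith
      · rw [ENNReal.ofReal_of_nonpos (p := 1 / 4 - √2 / 2 * z - -(1 / 4 - √2 / 2 * z)), mul_zero]
        nlinarith
  simp only [h1]
  rw [lintegral_indicator measurableSet_Ioc, ← ofReal_integral_eq_lintegral_ofReal]
  · congr 1
    rw [← intervalIntegral.integral_of_le (by linarith)]
    have hd : ∀ z : ℝ, HasDerivAt (fun z : ℝ => z / 4 - 2 / 3 * z ^ 3) (1 / 4 - 2 * z ^ 2) z := by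
      intro z
      have := ((hasDerivAt_id z).div_const 4).sub ((hasDerivAt_pow 3 z).const_mul (2 / 3))
      refine this.congr_deriv ?_
      norm_num
      ring
    rw [intervalIntegral.integral_eq_sub_of_hasDerivAt (fun z _ => hd z)
      ((by fun_prop : Continuous fun z : ℝ => 1 / 4 - 2 * z ^ 2).intervalIntegrable _ _)]
    linear_combination (-√2 / 48) * s2
  · have hc : Continuous fun z : ℝ => 1 / 4 - 2 * z ^ 2 := by fun_prop
    exact (hc.continuousOn.integrableOn_compact isCompact_Icc).mono_set Ioc_subset_Icc_self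
  · filter_upwards [ae_restrict_mem measurableSet_Ioc] with z hz
    have h2 : z ^ 2 ≤ 1 / 8 := by nlinarith [hz.1, hz.2]
    show (0 : ℝ) ≤ 1 / 4 - 2 * z ^ 2
    linarith

/-- **the volume of the regular tetrahedron** -/
theorem vol_TT' (ha : ∀ i j, i ≠ j → dist (a i) (a j) = 1) :
    volume (TT a) = ENNReal.ofReal (√2 / 12) := by
  obtain ⟨b, h0, h1, h2⟩ := (gram_of_dist ha).frame
  have e : TT a = (fun x => crd b (x - cen a)) ⁻¹' TA := by
    ext x
    obtain ⟨a0, a1, a2, a3⟩ := frame_inner (gram_of_dist ha) h0 h1 h2 (x - cen a)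
    simp only [mem_preimage, crd_apply, TA, mem_setOf_eq, abs_le]
    constructor
    · intro h
      have g0 := h 0
      have g1 := h 1
      have g2 := h 2
      have g3 := h 3
      rw [a0] at g0
      rw [a1] at g1
      rw [a2] at g2
      rw [a3] at g3
      refine ⟨⟨?_, ?_⟩, ?_, ?_⟩ <;> linarith
    · rintro ⟨⟨g0, g1⟩, g2, g3⟩ k
      fin_cases k
      · show -(1 / 8) ≤ ⟪al a 0, x - cen a⟫
        rw [a0]; linarith
      · show -(1 / 8) ≤ ⟪al a 1, x - cen a⟫
        rw [a1]; linarith
      · show -(1 / 8) ≤ ⟪al a 2, x - cen a⟫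
        rw [a2]; linarith
      · show -(1 / 8) ≤ ⟪al a 3, x - cen a⟫
        rw [a3]; linarith
  have hp : MeasurePreserving (fun x : E3 => crd b (x - cen a)) volume volume :=
    (crd_mp b).comp (measurePreserving_sub_right volume (cen a))
  rw [e, hp.measure_preimage TA_meas.nullMeasurableSet, vol_TA]

theorem vol_TT (ha : ∀ i j, i ≠ j → dist (a i) (a j) = 1) :
    volume.real (TT a) = √2 / 12 := by
  rw [measureReal_def, vol_TT' ha, ENNReal.toReal_ofReal (by positivity)]

theorem vol_hull (ha : ∀ i j, i ≠ j → dist (a i) (a j) = 1) :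
    volume (convexHull ℝ (range a)) = ENNReal.ofReal (√2 / 12) := by
  rw [hull_eq ha, vol_TT' ha]

end Helper14.MEI2
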