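import Pool.Agent.Helper82.CW.Fin

/-!
# Exact volume of a body with smooth support function
-/

namespace Helper14.MEI2

open Set Metric MeasureTheory Helper80.CW Helper82.CW
open scoped ContDiff Topology RealInnerProductSpace Real

section
variable {f : E3 → ℝ} {c : ℝ}

/-- the body with support function `f` -/
def Bd (f : E3 → ℝ) : Set E3 := {y : E3 | ∀ z, ⟪y, z⟫ ≤ f z}

theorem SSup_le (h : SSup f c) (x : E3) : f x ≤ c * ‖x‖ := by
  have := h.width x
  have := h.nonneg (-x)
  linarith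

theorem SSup_cont (h : SSup f c) : Continuous f := by
  rw [continuous_iff_continuousAt]
  intro x
  by_cases hx : x = 0
  · subst hx
    unfold ContinuousAt
    rw [h.zero]
    apply squeeze_zero (g := fun x => c * ‖x‖) (fun x => h.nonneg x) (fun x => SSup_le h x)
    have : Continuous (fun x : E3 => c * ‖x‖) := by fun_prop
    have h1 := this.tendsto 0
    simpa using h1
  · exact (h.sm x hx).continuousAt

theorem Bd_closed (f : E3 → ℝ) : IsClosed (Bd f) := by
  have : Bd f = ⋂ z : E3, {y : E3 | ⟪y, z⟫ ≤ f z} := by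
    ext y; simp [Bd]
  rw [this]
  exact isClosed_iInter fun z => isClosed_le (by fun_prop) continuous_const

theorem Bd_norm (h : SSup f c) {y : E3} (hy : y ∈ Bd f) : ‖y‖ ≤ c := by
  have h1 := hy y
  rw [real_inner_self_eq_norm_mul_norm] at h1
  have h2 := SSup_le h y
  rcases eq_or_lt_of_le (norm_nonneg y) with h3 | h3
  · rw [← h3]; exact h.cpos.le
  · exact le_of_mul_le_mul_right (h1.trans h2) h3

/-- every point of the body is in the image of the unit ball -/
theorem surj (h : SSup f c) {y : E3} (hy : y ∈ Bd f) (hy0 : y ≠ 0) :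
    ∃ x, x ≠ 0 ∧ ‖x‖ ≤ 1 ∧ Fm f x = y := by
  have hn : 0 < ‖y‖ := norm_pos_iff.2 hy0
  set S : Set ℝ := {t | 1 ≤ t ∧ t • y ∈ Bd f} with hS
  have hS1 : (1 : ℝ) ∈ S := ⟨le_rfl, by simpa using hy⟩
  have hSb : BddAbove S := by
    refine ⟨c / ‖y‖, ?_⟩
    rintro t ⟨ht1, ht2⟩
    have := Bd_norm h ht2
    rw [norm_smul, Real.norm_of_nonneg (by linarith)] at this
    rw [le_div_iff₀ hn]
    exact this
  have hScl : IsClosed S := by
    have e : S = Ici 1 ∩ (fun t : ℝ => t • y) ⁻¹' (Bd f) := by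
      ext t; simp [hS]
    rw [e]
    exact isClosed_Ici.inter ((Bd_closed f).preimage (by fun_prop))
  set T := sSup S with hT
  have hTS : T ∈ S := hScl.csSup_mem ⟨1, hS1⟩ hSb
  have hT1 := hTS.1
  have hTp : 0 < T := by linarith
  have hsc : IsCompact (sphere (0 : E3) 1) := isCompact_sphere 0 1
  have hsn : (sphere (0 : E3) 1).Nonempty := ⟨e 0, by simp [norm_e]⟩
  have hphc : ContinuousOn (fun z : E3 => f z - ⟪T • y, z⟫) (sphere (0 : E3) 1) := by
    have := SSup_cont h
    fun_prop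
  obtain ⟨z0, hz0, hmin⟩ := hsc.exists_isMinOn hsn hphc
  have hz0n : ‖z0‖ = 1 := by simpa using hz0
  have hz00 : z0 ≠ 0 := by
    intro h0; rw [h0] at hz0n; simp at hz0n
  have hm0 : 0 ≤ f z0 - ⟪T • y, z0⟫ := by
    have := hTS.2 z0; linarith
  have hmz : f z0 = ⟪T • y, z0⟫ := by
    by_contra hne
    have hmp : 0 < f z0 - ⟪T • y, z0⟫ := lt_of_le_of_ne hm0 (fun h1 => hne (by linarith))
    set m := f z0 - ⟪T • y, z0⟫ with hm
    have hT' : T + m / ‖y‖ ∈ S := by
      refine ⟨by have : 0 < m / ‖y‖ := div_pos hmp hn; linarith, ?_⟩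
      intro z
      by_cases hz : z = 0
      · subst hz; simp [h.zero]
      have hzn : 0 < ‖z‖ := norm_pos_iff.2 hz
      have hu : ‖z‖⁻¹ • z ∈ sphere (0 : E3) 1 := by simp [norm_smul, hzn.ne']
      have h1 := hmin hu
      simp only [mem_ofPred_eq] at h1
      rw [← hm, h.pos_smul (inv_nonneg.2 hzn.le), inner_smul_right] at h1
      have h2 : m * ‖z‖ ≤ f z - ⟪T • y, z⟫ := by
        have h3 := mul_le_mul_of_nonneg_left h1 hzn.le
        have h4 : ‖z‖ * (‖z‖⁻¹ * f z - ‖z‖⁻¹ * ⟪T • y, z⟫) = f z - ⟪T • y, z⟫ := by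
          field_simp
        rw [h4] at h3
        linarith
      have h5 : ⟪(T + m / ‖y‖) • y, z⟫ = ⟪T • y, z⟫ + m / ‖y‖ * ⟪y, z⟫ := by
        rw [add_smul, inner_add_left]
        simp [inner_smul_left]
      rw [h5]
      have h6 : m / ‖y‖ * ⟪y, z⟫ ≤ m * ‖z‖ := by
        have h7 := real_inner_le_norm y z
        have h8 : m / ‖y‖ * ⟪y, z⟫ ≤ m / ‖y‖ * (‖y‖ * ‖z‖) :=
          mul_le_mul_of_nonneg_left h7 (div_nonneg hmp.le hn.le)
        have h9 : m / ‖y‖ * (‖y‖ * ‖z‖) = m * ‖z‖ := by field_simp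
        linarith
      linarith
    have h1 := le_csSup hSb hT'
    have : 0 < m / ‖y‖ := div_pos hmp hn
    linarith
  -- gradient
  have hgrad : ∀ i, pd i f z0 = (T • y) i := by
    intro i
    have hloc : IsLocalMin (fun z : E3 => f z - ⟪T • y, z⟫) z0 := by
      apply Filter.Eventually.of_forall
      intro z
      have := hTS.2 z
      simp only
      rw [hmz]
      linarith
    have h0 := hloc.fderiv_eq_zero
    have hfd : HasFDerivAt (fun z : E3 => f z - ⟪T • y, z⟫)
        (fderiv ℝ f z0 - (innerSL ℝ (T • y))) z0 :=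
      (h.sm.diffAt hz00).hasFDerivAt.sub (innerSL ℝ (T • y)).hasFDerivAt
    rw [hfd.fderiv] at h0
    have h1 := congrArg (fun L : E3 →L[ℝ] ℝ => L (e i)) h0
    simp only [ContinuousLinearMap.sub_apply, innerSL_apply_apply, ContinuousLinearMap.zero_apply] at h1
    have h2 : ⟪T • y, e i⟫ = (T • y) i := by
      simp [e, EuclideanSpace.inner_single_right]
    rw [h2] at h1
    unfold pd
    linarith
  refine ⟨T⁻¹ • z0, smul_ne_zero (inv_ne_zero hTp.ne') hz00, ?_, ?_⟩
  · rw [norm_smul, hz0n, mul_one, Real.norm_of_nonneg (inv_nonneg.2 hTp.le)]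
    exact inv_le_one_of_one_le₀ hT1
  · ext i
    rw [Fm_apply, norm_smul, hz0n, mul_one, Real.norm_of_nonneg (inv_nonneg.2 hTp.le)]
    have h1 := (h.hom.pd h.sm i) T⁻¹ (inv_pos.2 hTp) z0 hz00
    norm_num at h1
    rw [h1, hgrad i]
    simp
    field_simp

theorem volume_le (h : SSup f c) {V0 : ℝ}
    (hV : SI (fun x => f x * (lap f x ^ 2 - hs2 f x)) ≤ 6 * V0) :
    volume (Bd f) ≤ ENNReal.ofReal V0 := by
  set D : E3 → ℝ := fun x => (fderiv ℝ (Fm f) x).det with hD
  set s : Set E3 := {x | x ≠ 0 ∧ ‖x‖ ≤ 1} with hs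
  have hsm : MeasurableSet s := by
    have e : s = {0}ᶜ ∩ closedBall 0 1 := by
      ext x; simp [hs]
    rw [e]
    exact (measurableSet_singleton 0).compl.inter measurableSet_closedBall
  have himg := addHaar_image_le_lintegral_abs_det_fderiv volume hsm
    (f := Fm f) (f' := fun x => fderiv ℝ (Fm f) x)
    (fun x hx => (Fm_diffAt h.sm hx.1).hasFDerivAt.hasFDerivWithinAt)
  have hsub : Bd f ⊆ {0} ∪ Fm f '' s := by
    intro y hy
    by_cases hy0 : y = 0
    · exact Or.inl hy0
    · obtain ⟨x, h1, h2, h3⟩ := surj h hy hy0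
      exact Or.inr ⟨x, ⟨h1, h2⟩, h3⟩
  have hle : volume (Bd f) ≤ ∫⁻ x in s, ENNReal.ofReal |D x| := by
    refine (measure_mono hsub).trans ((measure_union_le _ _).trans ?_)
    rw [measure_singleton, zero_add]
    exact himg
  refine hle.trans ?_
  have e1 : ∀ x, x ≠ 0 → D x = ‖x‖ * (f x * (lap f x ^ 2 - hs2 f x)) / 2 := by
    intro x hx
    rw [hD]
    simp only
    rw [h.det_eq hx]
    ring
  have hDhom : Hom 0 D := by
    have a := (h.hom.lap h.sm).sq
    have b := h.hom.hs2 h.sm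
    norm_num at a b
    have e2 := Hom.norm.mul (h.hom.mul (a.sub b))
    norm_num at e2
    intro r hr x hx
    rw [e1 x hx, e1 _ (smul_ne_zero hr.ne' hx)]
    have := e2 r hr x hx
    norm_num at this ⊢
    linarith
  have hD0 : ∀ x, x ≠ 0 → 0 ≤ D x := by
    intro x hx
    rw [e1 x hx]
    have a1 := sig_nonneg h hx
    have a2 := h.nonneg x
    positivity
  have hpol := polar hDhom (fun r => if r ≤ 1 then 1 else 0)
  have h13 : ∫ r in Ioi (0 : ℝ), r ^ 2 * ((if r ≤ 1 then (1 : ℝ) else 0) * r ^ (0 : ℤ)) = 1 / 3 := by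
    have e1 : ∫ r in Ioi (0 : ℝ), r ^ 2 * ((if r ≤ 1 then (1 : ℝ) else 0) * r ^ (0 : ℤ)) =
        ∫ r in Ioc (0 : ℝ) 1, r ^ 2 := by
      have e2 : ∫ r in Ioi (0 : ℝ), r ^ 2 * ((if r ≤ 1 then (1 : ℝ) else 0) * r ^ (0 : ℤ)) =
          ∫ r in Ioc (0 : ℝ) 1, r ^ 2 * ((if r ≤ 1 then (1 : ℝ) else 0) * r ^ (0 : ℤ)) := by
        apply setIntegral_eq_of_subset_of_forall_sdiff_eq_zero measurableSet_Ioi
        · intro r hr
          exact hr.1
        · intro r hr
          have : ¬ r ≤ 1 := fun h => hr.2 ⟨hr.1, h⟩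
          simp [this]
      rw [e2]
      apply setIntegral_congr_fun measurableSet_Ioc
      intro r hr
      simp [hr.2]
    rw [e1, ← intervalIntegral.integral_of_le (by norm_num), integral_pow]
    norm_num
  rw [h13] at hpol
  have hSI : SI D = (1 / 2) * SI (fun x => f x * (lap f x ^ 2 - hs2 f x)) := by
    rw [← SI_const_mul]
    apply SI_congr
    intro x hx
    have hx0 : x ≠ 0 := by
      rintro rfl
      simp at hx
    rw [hD]
    simp only
    rw [h.det_eq hx0, hx]
    ring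
  -- integrability of `D` on the ball: bounded and continuous off 0
  have hDc : ContinuousOn D {x | x ≠ 0} := by
    intro x hx
    have h1 : ContinuousAt (fderiv ℝ (Fm f)) x :=
      ((contDiffAt_Fm h.sm hx).fderiv_right (m := ∞) (by simp)).continuousAt
    exact (ContinuousLinearMap.continuous_det.continuousAt.comp h1).continuousWithinAt
  have hDmeas : AEStronglyMeasurable D (volume.restrict s) :=
    (hDc.mono (fun x hx => hx.1)).aestronglyMeasurable hsm
  obtain ⟨C, hC⟩ : ∃ C, ∀ x, x ≠ 0 → |D x| ≤ C := by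
    have hcs : ContinuousOn (fun x => |D x|) (sphere (0 : E3) 1) :=
      (hDc.mono (fun x hx => by rintro rfl; simp at hx)).abs
    obtain ⟨C, hC⟩ := (isCompact_sphere (0 : E3) 1).exists_bound_of_continuousOn
      (hDc.mono (fun x hx => by rintro rfl; simp at hx))
    refine ⟨C, fun x hx => ?_⟩
    have hn : 0 < ‖x‖ := norm_pos_iff.2 hx
    have hu : ‖x‖⁻¹ • x ∈ sphere (0 : E3) 1 := by simp [norm_smul, hn.ne']
    have h1 := hC _ hu
    have h2 := hDhom ‖x‖⁻¹ (inv_pos.2 hn) x hx
    norm_num at h2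
    rw [h2] at h1
    exact h1
  have hsfin : volume s < ⊤ :=
    (measure_mono (fun x hx => by simpa using hx.2 : s ⊆ closedBall (0 : E3) 1)).trans_lt
      measure_closedBall_lt_top
  have hint : IntegrableOn D s := by
    have hc : IntegrableOn (fun _ : E3 => C) s := integrableOn_const hsfin.ne
    refine Integrable.mono' hc hDmeas ?_
    filter_upwards [ae_restrict_mem hsm] with x hx
    exact hC x hx.1
  have heq : ∫⁻ x in s, ENNReal.ofReal |D x| = ENNReal.ofReal (∫ x in s, D x) := by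
    rw [ofReal_integral_eq_lintegral_ofReal hint]
    · apply setLIntegral_congr_fun hsm
      intro x hx
      simp only
      rw [abs_of_nonneg (hD0 x hx.1)]
    · filter_upwards [ae_restrict_mem hsm] with x hx
      exact hD0 x hx.1
  rw [heq]
  apply ENNReal.ofReal_le_ofReal
  have hI : ∫ x in s, D x = ∫ x : E3, (if ‖x‖ ≤ 1 then (1 : ℝ) else 0) * D x := by
    rw [← integral_indicator hsm]
    apply integral_congr_ae
    have hae : ∀ᵐ x : E3, x ≠ 0 := by simp [ae_iff, measure_singleton]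
    filter_upwards [hae] with x hx
    by_cases h1 : ‖x‖ ≤ 1
    · rw [indicator_of_mem (show x ∈ s from ⟨hx, h1⟩)]
      simp [h1]
    · rw [indicator_of_notMem (fun h2 => h1 h2.2)]
      simp [h1]
  rw [hI, hpol, hSI]
  linarith

/-- the cubic polynomial giving the volumes of parallel bodies -/
noncomputable def vp (A w : ℝ) : ℝ := (3 * w / 2 * A + π * w ^ 3) / 6

noncomputable def oddA (f : E3 → ℝ) (c : ℝ) : ℝ :=
  SI (fun x => lap (oddpart f c) x ^ 2 - hs2 (oddpart f c) x)

theorem volume_Bd_le (h : SSup f c) : volume (Bd f) ≤ ENNReal.ofReal (vp (oddA f c) c) := by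
  apply volume_le h
  rw [vol_id h]
  unfold vp oddA
  linarith

theorem volume_Bd_ge (h : SSup f c) : ENNReal.ofReal (vp (oddA f c) c) ≤ volume (Bd f) := by
  apply volume_ge h
  rw [vol_id h]
  unfold vp oddA
  linarith

/-- outer parallel function -/
theorem SSup_par (h : SSup f c) {δ : ℝ} (hδ : 0 ≤ δ) : SSup (fun x => f x + δ * ‖x‖) (c + 2 * δ) where
  sm := h.sm.add ((Sm.const _).mul Sm.norm)
  hom := by
    have := h.hom.add (Hom.norm.const_mul δ)
    exact this
  zero := by simp [h.zero]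
  sub := fun x y => by
    have h1 := h.sub x y
    have h2 := norm_add_le x y
    have h3 := mul_le_mul_of_nonneg_left h2 hδ
    linarith
  nonneg := fun x => add_nonneg (h.nonneg x) (mul_nonneg hδ (norm_nonneg x))
  width := fun x => by
    have := h.width x
    simp only [norm_neg]
    linarith
  cpos := by have := h.cpos; linarith

theorem oddpart_par (f : E3 → ℝ) (c δ : ℝ) :
    oddpart (fun x => f x + δ * ‖x‖) (c + 2 * δ) = oddpart f c := by
  ext x
  unfold oddpart
  ring

theorem oddA_par (f : E3 → ℝ) (c δ : ℝ) :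
    oddA (fun x => f x + δ * ‖x‖) (c + 2 * δ) = oddA f c := by
  unfold oddA
  rw [oddpart_par]

end

end Helper14.MEI2
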